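import Pool.Agent.Lib.MP_b8b490_an.Low.Defs
import Pool.Agent.Lib.MP_b8b490_an.B2

open MeasureTheory Set Filter Topology
open scoped ENNReal

namespace Pool.Agent.Lib.MP_b8b490_an.Low

open Pool.Agent.Lib.MP_b8b490_an.Four

theorem GradC_sM_one : sM 1 = 0 := by
  unfold sM
  norm_num

theorem GradC_sM_range {C : ℝ} (hC : 1 ≤ C) : 0 ≤ sM C ∧ sM C < 1 := by
  rcases hC.lt_or_eq with h | h
  · exact ⟨(sM_mem h).1.le, (sM_mem h).2.1⟩
  · rw [← h, GradC_sM_one]
    norm_num

theorem GradC_cont_sM : ContinuousOn sM (Ici 1) := by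
  unfold sM
  have h1 : ContinuousOn (fun M : ℝ => 1 - 1 / M ^ 2) (Ici 1) := by
    refine continuousOn_const.sub (continuousOn_const.div (by fun_prop) ?_)
    intro x hx
    have h2 : (1 : ℝ) ≤ x := hx
    positivity
  exact (Real.continuous_rpow_const (q := (1 : ℝ) / 6) (by norm_num)).comp_continuousOn h1

theorem GradC_cont_sM_Cc {k : ℕ} {a : ℝ} (ha : 0 < a) :
    Continuous (fun x : Fin (k + 1) → ℝ => sM (Cc a x)) :=
  GradC_cont_sM.comp_continuous (continuous_Cc a) fun x => (tt_le ha x).2.2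

theorem GradC_cont_aa : Continuous aa := by
  unfold aa
  have h1 : Continuous fun s : ℝ => Real.arctan ((2 * s + 1) / Real.sqrt 3) :=
    Real.continuous_arctan.comp (by fun_prop)
  have h2 : Continuous fun s : ℝ => Real.arctan ((2 * s - 1) / Real.sqrt 3) :=
    Real.continuous_arctan.comp (by fun_prop)
  exact continuous_const.mul (h1.add h2)

theorem GradC_cont_LL : ContinuousOn LL (Ico 0 1) := by
  unfold LL
  have h1 : ContinuousOn (fun s : ℝ => Real.log (1 + s)) (Ico 0 1) :=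
    ContinuousOn.log (by fun_prop) fun x hx => by
      have := hx.1
      positivity
  have h2 : ContinuousOn (fun s : ℝ => Real.log (1 + s + s ^ 2)) (Ico 0 1) :=
    ContinuousOn.log (by fun_prop) fun x hx => by
      have := hx.1
      positivity
  have h3 : ContinuousOn (fun s : ℝ => Real.log (1 - s + s ^ 2)) (Ico 0 1) :=
    ContinuousOn.log (by fun_prop) fun x _ => by
      have : 0 < 1 - x + x ^ 2 := by nlinarith [sq_nonneg (x - 1 / 2)]
      exact this.ne'
  have h4 : ContinuousOn (fun s : ℝ => Real.log (1 - s ^ 6)) (Ico 0 1) :=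
    ContinuousOn.log (by fun_prop) fun x hx => by
      have h : x ^ 6 < 1 := pow_lt_one₀ hx.1 hx.2 (by norm_num)
      have : 0 < 1 - x ^ 6 := by linarith
      exact this.ne'
  have h5 : ContinuousOn aa (Ico 0 1) := GradC_cont_aa.continuousOn
  exact (((h1.add (continuousOn_const.mul h2)).add (continuousOn_const.mul h3)).sub
    (h4.div_const 2)).add h5

theorem GradC_aa_zero : aa 0 = 0 := by
  unfold aa
  have h : ((2 : ℝ) * 0 - 1) / Real.sqrt 3 = -((2 * 0 + 1) / Real.sqrt 3) := by ring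
  rw [h, Real.arctan_neg]
  ring

theorem GradC_uu_zero (t : ℝ) : uu 0 t = 0 := by
  unfold uu LL QQ B1 B3 B5
  rw [GradC_aa_zero]
  norm_num

theorem continuous_Phi {k : ℕ} {a : ℝ} (ha : 0 < a) : Continuous (Phi (k := k) a) := by
  have hs := GradC_cont_sM_Cc (k := k) ha
  have ht := continuous_tt (k := k) a
  have hL : Continuous fun x : Fin (k + 1) → ℝ => LL (sM (Cc a x)) :=
    GradC_cont_LL.comp_continuous hs fun x => GradC_sM_range (tt_le ha x).2.2
  unfold Phi uu QQ B1 B3 B5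
  fun_prop

theorem Phi_slit {k : ℕ} {a : ℝ} (ha : 0 < a) {x : Fin (k + 1) → ℝ} (hx : x ∈ slit a) :
    Phi a x = 0 := by
  have h1 : Cc a x = 1 := by
    have h2 : ¬ 1 < Cc a x := fun h => (one_lt_Cc_iff ha x).mp h hx
    exact le_antisymm (not_lt.mp h2) (tt_le ha x).2.2
  unfold Phi
  rw [h1, GradC_sM_one, GradC_uu_zero]

theorem continuousOn_grad {k : ℕ} {a : ℝ} (ha : 0 < a) (i : Fin (k + 1)) :
    ContinuousOn (fld a al be i) (slit (k := k) a)ᶜ := by
  have hs : ContinuousOn (fun x : Fin (k + 1) → ℝ => sM (Cc a x)) (slit a)ᶜ :=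
    (GradC_cont_sM_Cc ha).continuousOn
  have hC : ContinuousOn (fun x : Fin (k + 1) → ℝ => Cc a x) (slit a)ᶜ :=
    (continuous_Cc a).continuousOn
  have ht : ContinuousOn (fun x : Fin (k + 1) → ℝ => tt a x) (slit a)ᶜ :=
    (continuous_tt a).continuousOn
  have hp : ContinuousOn (fun x : Fin (k + 1) → ℝ => pp (sM (Cc a x)) (tt a x ^ 2)) (slit a)ᶜ := by
    unfold pp dQ dB1 dB3 dB5
    fun_prop
  have hS : ContinuousOn (fun x : Fin (k + 1) → ℝ => SS (sM (Cc a x)) (tt a x ^ 2)) (slit a)ᶜ := by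
    unfold SS B1 B3 B5
    fun_prop
  have hal : ContinuousOn (fun x : Fin (k + 1) → ℝ => al (Cc a x) (tt a x)) (slit a)ᶜ := by
    unfold al
    refine hp.div ((hs.pow 5).mul hC) ?_
    intro x hx
    have h1 : 1 < Cc a x := (one_lt_Cc_iff ha x).mpr hx
    have h2 := (sM_mem h1).1
    have h3 : 0 < Cc a x := by linarith
    positivity
  have hbe : ContinuousOn (fun x : Fin (k + 1) → ℝ => be (Cc a x) (tt a x)) (slit a)ᶜ := by
    unfold be
    exact (continuousOn_const.mul ht).mul hS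
  exact (hal.mul (continuousOn_dC ha i)).add (hbe.mul (continuousOn_dT ha i))

end Pool.Agent.Lib.MP_b8b490_an.Low
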