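import Pool.Agent.Lib.MP_b8b490_an.Low.Grad
import Pool.Agent.Lib.MP_b8b490_an.Low.GradC
import Pool.Agent.Lib.MP_b8b490_an.A1

open MeasureTheory Set Filter Topology
open scoped ENNReal

namespace Pool.Agent.Lib.MP_b8b490_an.Low

open Pool.Agent.Lib.MP_b8b490_an.Four

theorem Adm_isOpen_ring {k : ℕ} (a : ℝ) : IsOpen (ring (k := k) a) := by
  have h1 : IsOpen {x : Fin (k + 1) → ℝ | euc x < 1} := by
    refine isOpen_lt ?_ continuous_const
    unfold euc
    fun_prop
  exact h1.sdiff (isClosed_slit a)

theorem Adm_lip {M : ℝ} (hM : 0 < M) :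
    LipschitzWith (Real.toNNReal (1 / M)) (fun s : ℝ => min 1 (s / M)) := by
  have h1 : LipschitzWith (Real.toNNReal (1 / M)) (fun s : ℝ => s / M) := by
    refine LipschitzWith.of_dist_le_mul fun x y => ?_
    rw [Real.coe_toNNReal _ (by positivity), Real.dist_eq, Real.dist_eq]
    have : x / M - y / M = 1 / M * (x - y) := by ring
    rw [this, abs_mul, abs_of_pos (by positivity : 0 < 1 / M)]
  exact h1.const_min 1

theorem Adm_deriv_le {g f : ℝ → ℝ} {L : NNReal} (hg : LipschitzWith L g) {x : ℝ}
    (hf : DifferentiableAt ℝ f x) : |deriv (fun s => g (f s)) x| ≤ L * |deriv f x| := by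
  by_cases h : DifferentiableAt ℝ (fun s => g (f s)) x
  · have h1 := h.hasDerivAt.tendsto_slope
    have h2 := hf.hasDerivAt.tendsto_slope
    refine le_of_tendsto_of_tendsto h1.abs (h2.abs.const_mul (L : ℝ)) ?_
    filter_upwards with s
    simp only [slope, vsub_eq_sub, smul_eq_mul, abs_mul]
    have h3 := hg.dist_le_mul (f s) (f x)
    rw [Real.dist_eq, Real.dist_eq] at h3
    calc |(s - x)⁻¹| * |g (f s) - g (f x)| ≤ |(s - x)⁻¹| * (L * |f s - f x|) :=
          mul_le_mul_of_nonneg_left h3 (abs_nonneg _)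
      _ = L * (|(s - x)⁻¹| * |f s - f x|) := by ring
  · rw [deriv_zero_of_not_differentiableAt h, abs_zero]
    positivity

theorem Adm_euc_mono {n : ℕ} {v w : Fin n → ℝ} {L : ℝ} (hL : 0 ≤ L)
    (h : ∀ i, |v i| ≤ L * |w i|) : euc v ≤ L * euc w := by
  unfold euc
  have e : L * Real.sqrt (∑ i, w i ^ 2) = Real.sqrt (∑ i, L ^ 2 * w i ^ 2) := by
    rw [← Finset.mul_sum, Real.sqrt_mul (sq_nonneg L), Real.sqrt_sq hL]
  rw [e]
  refine Real.sqrt_le_sqrt (Finset.sum_le_sum fun i _ => ?_)
  have h1 := h i
  have h2 : v i ^ 2 = |v i| ^ 2 := (sq_abs _).symm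
  have h3 : w i ^ 2 = |w i| ^ 2 := (sq_abs _).symm
  rw [h2, h3, ← mul_pow]
  exact pow_le_pow_left₀ (abs_nonneg _) h1 2

theorem Adm_segment {k : ℕ} {a : ℝ} (ha : 0 < a) {x : Fin (k + 1) → ℝ} (i : Fin (k + 1))
    {l u : ℝ} (hlu : l ≤ u) (hs : ∀ s ∈ Icc l u, Function.update x i s ∉ slit a) :
    AbsolutelyContinuousOnInterval (fun s : ℝ => Phi a (Function.update x i s)) l u := by
  have hder : ∀ s ∈ Icc l u, HasDerivAt (fun r : ℝ => Phi a (Function.update x i r))
      (fld a al be i (Function.update x i s)) s := by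
    intro s hs'
    have h1 := hasDerivAt_Phi ha (hs s hs') i
    simpa [Function.update_idem] using h1
  have hcont : ContinuousOn (fun s : ℝ => fld a al be i (Function.update x i s)) (Icc l u) := by
    have hc : Continuous (fun s : ℝ => Function.update x i s) :=
      continuous_const.update i continuous_id
    exact (continuousOn_grad ha i).comp hc.continuousOn fun s hs' => hs s hs'
  obtain ⟨C, hC⟩ := isCompact_Icc.exists_bound_of_continuousOn hcont
  have hC0 : 0 ≤ C := (norm_nonneg _).trans (hC l (left_mem_Icc.2 hlu))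
  have hlip : LipschitzOnWith (Real.toNNReal C)
      (fun s : ℝ => Phi a (Function.update x i s)) (uIcc l u) := by
    rw [uIcc_of_le hlu]
    refine (convex_Icc l u).lipschitzOnWith_of_nnnorm_hasDerivWithin_le
      (f' := fun s : ℝ => fld a al be i (Function.update x i s)) ?_ ?_
    · intro s hs'
      exact (hder s hs').hasDerivWithinAt
    · intro s hs'
      rw [← NNReal.coe_le_coe, coe_nnnorm, Real.coe_toNNReal _ hC0]
      exact hC s hs'
  exact hlip.absolutelyContinuousOnInterval

/-- the function `min 1 (Phi / M)` is admissible -/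
theorem cap_le {a M : ℝ} (ha0 : 0 < a) (hM : 0 < M)
    (h : ∀ x : Fin (3 + 1) → ℝ, 1 ≤ euc x → M ≤ Phi a x) :
    cap (ring (k := 3) a) (slit a) outer ≤ ENNReal.ofReal (1 / M ^ 4) *
      ∫⁻ x in ring (k := 3) a, ENNReal.ofReal (euc (fun i => fld a al be i x) ^ 4) := by
  have hlip := Adm_lip hM
  set f : (Fin (3 + 1) → ℝ) → ℝ := fun x => min 1 (Phi a x / M) with hf
  have hadm : Admissible (ring (k := 3) a) (slit a) outer f := by
    refine ⟨?_, ?_, ?_, ?_⟩
    · exact (hlip.continuous.comp (continuous_Phi ha0)).continuousOn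
    · intro l u hlu hsub i
      refine Filter.Eventually.of_forall fun x hx => ?_
      refine absCont_comp_lipschitz hlip (Adm_segment ha0 i (hlu i) fun s hs => ?_)
      refine (hsub ?_).2
      constructor
      · intro j
        by_cases hj : j = i
        · subst hj
          rw [Function.update_self]
          exact hs.1
        · rw [Function.update_of_ne hj]
          exact (hx j hj).1
      · intro j
        by_cases hj : j = i
        · subst hj
          rw [Function.update_self]
          exact hs.2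
        · rw [Function.update_of_ne hj]
          exact (hx j hj).2
    · intro x hx
      simp only [hf, Phi_slit ha0 hx, zero_div]
      exact min_eq_right zero_le_one
    · intro x hx
      exact min_eq_left ((one_le_div hM).2 (h x hx))
  have hpt : ∀ x ∈ ring (k := 3) a, ENNReal.ofReal (euc (fun i => pd f i x) ^ (3 + 1)) ≤
      ENNReal.ofReal (1 / M ^ 4) * ENNReal.ofReal (euc (fun i => fld a al be i x) ^ 4) := by
    intro x hx
    rw [← ENNReal.ofReal_mul (by positivity)]
    refine ENNReal.ofReal_le_ofReal ?_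
    have h1 : ∀ i, |pd f i x| ≤ 1 / M * |fld a al be i x| := by
      intro i
      have h2 := hasDerivAt_Phi ha0 hx.2 i
      have h3 := Adm_deriv_le hlip h2.differentiableAt
      rw [h2.deriv, Real.coe_toNNReal _ (by positivity)] at h3
      exact h3
    have h2 := Adm_euc_mono (by positivity : 0 ≤ 1 / M) h1
    have h3 : 0 ≤ euc (fun i => pd f i x) := Real.sqrt_nonneg _
    calc euc (fun i => pd f i x) ^ (3 + 1) ≤ (1 / M * euc (fun i => fld a al be i x)) ^ (3 + 1) :=
          pow_le_pow_left₀ h3 h2 _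
      _ = 1 / M ^ 4 * euc (fun i => fld a al be i x) ^ 4 := by
          rw [mul_pow, div_pow, one_pow]
  calc cap (ring (k := 3) a) (slit a) outer ≤ dirichlet (ring (k := 3) a) f :=
        iInf_le_of_le f (iInf_le _ hadm)
    _ ≤ ∫⁻ x in ring (k := 3) a, ENNReal.ofReal (1 / M ^ 4) *
          ENNReal.ofReal (euc (fun i => fld a al be i x) ^ 4) :=
        setLIntegral_mono' (Adm_isOpen_ring a).measurableSet hpt
    _ = _ := lintegral_const_mul' _ _ ENNReal.ofReal_ne_top

end Pool.Agent.Lib.MP_b8b490_an.Low
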