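import Pool.Agent.Lib.MP_b8b490_an.Low.CertData

namespace Pool.Agent.Lib.MP_b8b490_an.Low

/-- all Bernstein coefficients of the certificate are nonnegative -/
theorem Cert_FL : (bern FL).all (fun c => decide (0 ≤ c)) = true := by decide +kernel

end Pool.Agent.Lib.MP_b8b490_an.Low
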