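import Pool.Agent.Lib.MP_b8b490_an.Low.Int
import Pool.Agent.Lib.MP_b8b490_an.Low.CertOk

open MeasureTheory Set Filter Topology
open scoped ENNReal

namespace Pool.Agent.Lib.MP_b8b490_an.Low

open Pool.Agent.Lib.MP_b8b490_an.Four

theorem Cert_den {s t : ℝ} (h0 : 0 < s) (h1 : s < 1) (ht : t ∈ Icc (-1 : ℝ) 1) :
    0 < 1 - t ^ 2 * (1 - s ^ 6) := by
  have h2 : t ^ 2 ≤ 1 := by
    rw [← sq_abs]
    exact pow_le_one₀ (abs_nonneg _) (abs_le.2 ⟨ht.1, ht.2⟩)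
  have h3 : 0 < s ^ 6 := by positivity
  have h4 : s ^ 6 < 1 := pow_lt_one₀ h0.le h1 (by norm_num)
  nlinarith [sq_nonneg t]

theorem GG_nonneg {s : ℝ} (h0 : 0 < s) (h1 : s < 1) : 0 ≤ GG s := by
  have hpi := Real.pi_pos
  unfold GG
  refine mul_nonneg (by positivity) ?_
  refine intervalIntegral.integral_nonneg (by norm_num) fun t ht => ?_
  refine div_nonneg (mul_nonneg (Real.sqrt_nonneg _) ?_) (Cert_den h0 h1 ht).le
  unfold NN
  positivity

theorem Cert_PL (s T : ℝ) : ev2 s T PL = 3072 * pp s T := by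
  simp only [PL, ev2, ev, pp, dQ, dB1, dB3, dB5]
  push_cast
  ring

theorem Cert_SL (s T : ℝ) : ev2 s T SL = 1024 * SS s T := by
  simp only [SL, ev2, ev, SS, B1, B3, B5]
  push_cast
  ring

theorem Cert_NL (s T : ℝ) : ev2 s T NL = 3072 ^ 4 * NN s T := by
  rw [NL, ev2_mul, EL, ev2_add, ev2_mul, ev2_mul, ev2_mul, Cert_PL, Cert_SL]
  simp only [XL, ev2, ev, NN]
  push_cast
  ring

theorem Cert_RL (s : ℝ) : ev s RL = 16384 * RR s := by
  simp only [RL, ev, RR]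
  push_cast
  ring

/-- the linear functional -/
noncomputable def JJ (s : ℝ) : ℕ → List (List ℤ) → ℝ
  | _, [] => 0
  | k, c :: l => ev s c * ii s k + JJ s (k + 1) l

theorem Cert_cont_ev2 (s : ℝ) : ∀ l : List (List ℤ), Continuous fun t : ℝ => ev2 s (t ^ 2) l
  | [] => by simp only [ev2]; exact continuous_const
  | c :: l => by
    have := Cert_cont_ev2 s l
    simp only [ev2]
    fun_prop

theorem Cert_JJ {s : ℝ} (h0 : 0 < s) (h1 : s < 1) : ∀ (l : List (List ℤ)) (k : ℕ),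
    ∫ t in (-1 : ℝ)..1, Real.sqrt (1 - t ^ 2) * (t ^ 2) ^ k / (1 - t ^ 2 * (1 - s ^ 6)) *
      ev2 s (t ^ 2) l = JJ s k l
  | [], k => by simp [ev2, JJ]
  | c :: l, k => by
    have e : ∀ t : ℝ, Real.sqrt (1 - t ^ 2) * (t ^ 2) ^ k / (1 - t ^ 2 * (1 - s ^ 6)) *
        ev2 s (t ^ 2) (c :: l) =
        ev s c * (Real.sqrt (1 - t ^ 2) * (t ^ 2) ^ k / (1 - t ^ 2 * (1 - s ^ 6))) +
        Real.sqrt (1 - t ^ 2) * (t ^ 2) ^ (k + 1) / (1 - t ^ 2 * (1 - s ^ 6)) *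
          ev2 s (t ^ 2) l := by
      intro t
      simp only [ev2]
      ring
    simp only [e]
    rw [intervalIntegral.integral_add, intervalIntegral.integral_const_mul,
      Cert_JJ h0 h1 l (k + 1), JJ, ii]
    · exact ((cont_ii h0 h1 k).const_smul (ev s c)).intervalIntegrable
    · exact ((cont_ii h0 h1 (k + 1)).mul (Cert_cont_ev2 s l).continuousOn).intervalIntegrable

theorem Cert_CL (k : ℕ) (hk : k < 21) :
    ((k : ℤ) + 2) * CL (k + 1) = CL k * (2 * (2 * (k : ℤ) + 1)) := by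
  interval_cases k <;> decide +kernel

theorem Cert_sm (k : ℕ) (hk : k < 20) :
    sm (sc 4 (add (nL k) (sc (-(CL k)) (row (k + 1))))) = 0 := by
  interval_cases k <;> decide +kernel

theorem Cert_mom : ∀ k : ℕ, k ≤ 20 → 2 * mom k * (2 * 4 ^ k) = Real.pi * CL k
  | 0, _ => by
    rw [mom_zero]
    simp only [CL]
    push_cast
    ring
  | k + 1, hk => by
    have ih := Cert_mom k (by omega)
    have h2 := mom_succ k
    have h3 := Cert_CL k (by omega)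
    have h4 : ((k : ℝ) + 2) * CL (k + 1) = CL k * (2 * (2 * (k : ℝ) + 1)) := by
      exact_mod_cast h3
    have h5 : ((k : ℝ) + 2) ≠ 0 := by positivity
    refine mul_left_cancel₀ h5 ?_
    have e1 : ((k : ℝ) + 2) * (2 * mom (k + 1) * (2 * 4 ^ (k + 1))) =
        (2 * (k : ℝ) + 4) * mom (k + 1) * (2 * 4 ^ (k + 1)) := by ring
    rw [e1, h2]
    have e2 : (2 * (k : ℝ) + 1) * mom k * (2 * 4 ^ (k + 1)) =
        (2 * mom k * (2 * 4 ^ k)) * (2 * (2 * (k : ℝ) + 1)) := by ring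
    rw [e2, ih]
    linear_combination (-Real.pi) * h4

theorem Cert_ii {s : ℝ} (h0 : 0 < s) (h1 : s < 1) : ∀ k : ℕ, k ≤ 20 →
    ii s k * (2 * 4 ^ k * (1 + s ^ 3) ^ (k + 1)) = Real.pi * ev (s ^ 3) (nL k)
  | 0, _ => by
    have := ii_zero h0 h1
    simp only [nL, ev]
    push_cast
    linear_combination 2 * this
  | k + 1, hk => by
    have ih := Cert_ii h0 h1 k (by omega)
    have h2 := ii_succ h0 h1 k
    have h3 := Cert_mom k (by omega)
    have hx : s ^ 3 < 1 := pow_lt_one₀ h0.le h1 (by norm_num)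
    have h5 : (1 - s ^ 3) ≠ 0 := by linarith [hx] |> ne_of_gt
    refine mul_left_cancel₀ h5 ?_
    have h6 := ev_pre (s ^ 3) (sc 4 (add (nL k) (sc (-(CL k)) (row (k + 1))))) 0
    rw [Cert_sm k (by omega)] at h6
    have h7 : (1 - s ^ 3) * ev (s ^ 3) (nL (k + 1)) =
        4 * (ev (s ^ 3) (nL k) - CL k * (1 + s ^ 3) ^ (k + 1)) := by
      rw [nL, h6, ev_sc, ev_add, ev_sc, ev_row]
      push_cast
      ring
    have e1 : (1 - s ^ 3) * (ii s (k + 1) * (2 * 4 ^ (k + 1) * (1 + s ^ 3) ^ (k + 1 + 1))) =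
        4 * (1 + s ^ 3) ^ (k + 1) * (2 * 4 ^ k) * ((1 - s ^ 6) * ii s (k + 1)) := by ring
    rw [e1, h2]
    have e2 : (1 - s ^ 3) * (Real.pi * ev (s ^ 3) (nL (k + 1))) =
        Real.pi * ((1 - s ^ 3) * ev (s ^ 3) (nL (k + 1))) := by ring
    rw [e2, h7]
    linear_combination 4 * ih - 4 * (1 + s ^ 3) ^ (k + 1) * h3

theorem Cert_pw (s : ℝ) : ∀ n : ℕ, ev s (pw n) = (4 * (1 + s ^ 3)) ^ n
  | 0 => by simp [pw, ev]
  | n + 1 => by
    rw [pw, ev_mul, Cert_pw s n, pow_succ]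
    simp only [ev]
    push_cast
    ring

theorem Cert_num {s : ℝ} (h0 : 0 < s) (h1 : s < 1) : ∀ (l : List (List ℤ)) (k : ℕ),
    k + l.length ≤ 21 →
    JJ s k l * (2 * (4 * (1 + s ^ 3)) ^ (k + l.length)) = 4 * Real.pi * ev s (numL k l)
  | [], k, _ => by simp [JJ, numL, ev]
  | c :: l, k, h => by
    have h' : k + l.length + 1 ≤ 21 := by simpa [add_assoc] using h
    have ih := Cert_num h0 h1 l (k + 1) (by omega)
    have h2 := Cert_ii h0 h1 k (by omega)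
    simp only [JJ, numL, ev_add, ev_mul, ev_sp3, Cert_pw, List.length_cons]
    have e1 : (4 * (1 + s ^ 3)) ^ (k + 1 + l.length) = (4 * (1 + s ^ 3)) ^ (k + (l.length + 1)) := by
      congr 1
      omega
    rw [e1] at ih
    have e2 : (4 * (1 + s ^ 3)) ^ (k + (l.length + 1)) =
        4 * (4 ^ k * (1 + s ^ 3) ^ (k + 1)) * (4 * (1 + s ^ 3)) ^ l.length := by
      rw [mul_pow, mul_pow, pow_add, pow_add (1 + s ^ 3)]
      ring
    have e3 : ev s c * ii s k * (2 * (4 * (1 + s ^ 3)) ^ (k + (l.length + 1))) =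
        4 * ev s c * (4 * (1 + s ^ 3)) ^ l.length *
          (ii s k * (2 * 4 ^ k * (1 + s ^ 3) ^ (k + 1))) := by
      rw [e2]
      ring
    rw [add_mul, ih, e3, h2]
    ring

theorem Cert_len : NL.length = 21 := by decide +kernel

theorem Cert_GG {s : ℝ} (h0 : 0 < s) (h1 : s < 1) :
    GG s * (CK * (1 + s ^ 3) ^ 21) = ev s (numL 0 NL) := by
  have hpi := Real.pi_pos
  have h2 := Cert_num h0 h1 NL 0 (by rw [Cert_len])
  rw [Cert_len, ← Cert_JJ h0 h1] at h2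
  have h3 : ∫ t in (-1 : ℝ)..1, Real.sqrt (1 - t ^ 2) * (t ^ 2) ^ 0 / (1 - t ^ 2 * (1 - s ^ 6)) *
      ev2 s (t ^ 2) NL = 3072 ^ 4 * ∫ t in (-1 : ℝ)..1,
        Real.sqrt (1 - t ^ 2) * NN s (t ^ 2) / (1 - t ^ 2 * (1 - s ^ 6)) := by
    rw [← intervalIntegral.integral_const_mul]
    refine intervalIntegral.integral_congr fun t _ => ?_
    simp only [Cert_NL]
    ring
  rw [h3] at h2
  have hCK : ((CK : ℤ) : ℝ) = 3072 ^ 4 * 4 ^ 20 := by
    unfold CK
    norm_num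
  rw [hCK]
  unfold GG
  generalize (∫ t in (-1 : ℝ)..1,
        Real.sqrt (1 - t ^ 2) * NN s (t ^ 2) / (1 - t ^ 2 * (1 - s ^ 6))) = I at h2 ⊢
  have e1 : 4 * Real.pi * (2 / Real.pi * I * (3072 ^ 4 * 4 ^ 20 * (1 + s ^ 3) ^ 21)) =
      4 * Real.pi * ev s (numL 0 NL) := by
    rw [← h2, mul_pow]
    field_simp
    ring
  have h4 : 4 * Real.pi ≠ 0 := by positivity
  exact mul_left_cancel₀ h4 e1

theorem G_le {s : ℝ} (h0 : 0 < s) (h1 : s < 1) : 3 * (GG s - 1) ≤ (1 - s ^ 6) * RR s := by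
  have h2 := ev_nonneg Cert_FL h0.le h1.le
  have h3 := Cert_GG h0 h1
  have hp : (0 : ℝ) < CK * (1 + s ^ 3) ^ 21 := by
    unfold CK
    push_cast
    positivity
  have h4 : ev s FL = 16384 * ((1 - s ^ 6) * RR s * (CK * (1 + s ^ 3) ^ 21) -
      3 * (ev s (numL 0 NL) - CK * (1 + s ^ 3) ^ 21)) := by
    rw [FL, ev_add, ev_mul, ev_mul, ev_sc, ev_sc, ev_add, ev_sc, ev_sp3, ev_row, Cert_RL]
    simp only [ev]
    push_cast
    ring
  rw [h4, ← h3] at h2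
  have h5 : 0 ≤ ((1 - s ^ 6) * RR s - 3 * (GG s - 1)) * (CK * (1 + s ^ 3) ^ 21) := by
    linarith
  have h6 := nonneg_of_mul_nonneg_left h5 hp
  linarith

end Pool.Agent.Lib.MP_b8b490_an.Low
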