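import Pool.Agent.Lib.MP_b8b490_an.Low.Poly

/-! ### The certificate -/

namespace Pool.Agent.Lib.MP_b8b490_an.Low

/-- `3072 pp` -/
def PL : List (List ℤ) := [
  [2638, 406, -669, 0, 0, 0, 434, -406, 669],
  [-156, -4836, 20550, -29912, 16010, 0, 156, 4836, -20550, 29912, -16010],
  [],
  [349, 9278, -37233, 29384, 385, 0, -349, -9278, 37233, -29384, -385],
  [],
  [-1003, -5654, 21081, 200, -16235, 0, 1003, 5654, -21081, -200, 16235]]

/-- `1024 SS` -/
def SL : List (List ℤ) := [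
  [0, -156, -2418, 6850, -7478, 3202],
  [],
  [0, 1047, 13917, -37233, 22038, 231],
  [],
  [0, -5015, -14135, 35135, 250, -16235]]

/-- `36 T (1 - T) σ⁴` -/
def XL : List (List ℤ) := [[], [0, 0, 0, 0, 36], [0, 0, 0, 0, -36]]

/-- `3072² (pp² + 4 T (1 - T) σ⁴ SS²)` -/
def EL : List (List ℤ) := add2 (mul2 PL PL) (mul2 XL (mul2 SL SL))

/-- `3072⁴ NN` -/
def NL : List (List ℤ) := mul2 EL EL

/-- Catalan numbers -/
def CL : ℕ → ℤ
  | 0 => 1
  | k + 1 => CL k * (2 * (2 * (k : ℤ) + 1)) / ((k : ℤ) + 2)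

/-- the numerators of the integrals `ii` -/
def nL : ℕ → List ℤ
  | 0 => [2]
  | k + 1 => pre 0 (sc 4 (add (nL k) (sc (-(CL k)) (row (k + 1)))))

/-- powers of `4 (1 + σ³)` -/
def pw : ℕ → List ℤ
  | 0 => [1]
  | n + 1 => mul [4, 0, 0, 4] (pw n)

def numL : ℕ → List (List ℤ) → List ℤ
  | _, [] => []
  | k, c :: l => add (mul (mul c (sp3 (nL k))) (pw l.length)) (numL (k + 1) l)

/-- `16384 RR` -/
def RL : List ℤ := [-8613, -30137, 223281, -779453, 3274641, -15984552, 59061430, -151009562,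
  263484182, -306515552, 226591598, -95944309, 17637814]

def CK : ℤ := 3072 ^ 4 * 4 ^ 20

def FL : List ℤ :=
  add (mul (mul RL [1, 0, 0, 0, 0, 0, -1]) (sc CK (sp3 (row 21))))
    (sc (-49152) (add (numL 0 NL) (sc (-CK) (sp3 (row 21)))))

end Pool.Agent.Lib.MP_b8b490_an.Low
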