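import Pool.Agent.Lib.MP_b8b490_an.Four.D3

open MeasureTheory Set Filter Topology
open scoped ENNReal

namespace Pool.Agent.Lib.MP_b8b490_an.Low

open Pool.Agent.Lib.MP_b8b490_an.Four

/-! ### The explicit test function for the lower bound of `λ₄`

With `C` and `t` the spheroidal coordinates of the slit and `σ⁶ = 1 - C⁻²` the test function is
`uu σ t`; it vanishes on the slit (`σ = 0`) and `uu σ t - log |x / a|` tends to a constant. -/

/-- the primitive of `3 / (1 - σ⁶)` -/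
noncomputable def LL (s : ℝ) : ℝ :=
  Real.log (1 + s) + 3 / 4 * Real.log (1 + s + s ^ 2) + 1 / 4 * Real.log (1 - s + s ^ 2) -
    Real.log (1 - s ^ 6) / 2 + aa s

noncomputable def QQ (s : ℝ) : ℝ := s * (-434 + 203 * s - 223 * s ^ 2) / 1024

noncomputable def B1 (s : ℝ) : ℝ :=
  s * (1 - s) * (-156 - 2574 * s + 4276 * s ^ 2 - 3202 * s ^ 3) / 1024

noncomputable def B3 (s : ℝ) : ℝ :=
  s * (1 - s) * (349 + 4988 * s - 7423 * s ^ 2 - 77 * s ^ 3) / 1024

noncomputable def B5 (s : ℝ) : ℝ :=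
  s * (1 - s) * (-1003 - 3830 * s + 3197 * s ^ 2 + 3247 * s ^ 3) / 1024

/-- the test function -/
noncomputable def uu (s t : ℝ) : ℝ := LL s + QQ s + B1 s * t ^ 2 + B3 s * t ^ 6 + B5 s * t ^ 10

/-! The derivatives of `QQ`, `B1`, `B3`, `B5` -/

noncomputable def dQ (s : ℝ) : ℝ := (-434 + 406 * s - 669 * s ^ 2) / 1024

noncomputable def dB1 (s : ℝ) : ℝ :=
  (-156 - 4836 * s + 20550 * s ^ 2 - 29912 * s ^ 3 + 16010 * s ^ 4) / 1024

noncomputable def dB3 (s : ℝ) : ℝ :=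
  (349 + 9278 * s - 37233 * s ^ 2 + 29384 * s ^ 3 + 385 * s ^ 4) / 1024

noncomputable def dB5 (s : ℝ) : ℝ :=
  (-1003 - 5654 * s + 21081 * s ^ 2 + 200 * s ^ 3 - 16235 * s ^ 4) / 1024

/-- `(1 - σ⁶) / 3` times the derivative of `uu` in `σ`, as a function of `σ` and `T = t²` -/
noncomputable def pp (s T : ℝ) : ℝ :=
  1 + (1 - s ^ 6) / 3 * (dQ s + dB1 s * T + dB3 s * T ^ 3 + dB5 s * T ^ 5)

/-- the derivative of `uu` in `t` divided by `2 t`, as a function of `σ` and `T = t²` -/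
noncomputable def SS (s T : ℝ) : ℝ := B1 s + 3 * B3 s * T ^ 2 + 5 * B5 s * T ^ 4

/-- the energy density -/
noncomputable def NN (s T : ℝ) : ℝ := (pp s T ^ 2 + 4 * T * (1 - T) * s ^ 4 * SS s T ^ 2) ^ 2

/-- the integral over `t` -/
noncomputable def GG (s : ℝ) : ℝ :=
  2 / Real.pi * ∫ t in (-1 : ℝ)..1, Real.sqrt (1 - t ^ 2) * NN s (t ^ 2) / (1 - t ^ 2 * (1 - s ^ 6))

/-- the bound for `3 (GG - 1) / (1 - σ⁶)` -/
noncomputable def RR (s : ℝ) : ℝ :=
  (-8613 - 30137 * s + 223281 * s ^ 2 - 779453 * s ^ 3 + 3274641 * s ^ 4 - 15984552 * s ^ 5 +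
    59061430 * s ^ 6 - 151009562 * s ^ 7 + 263484182 * s ^ 8 - 306515552 * s ^ 9 +
    226591598 * s ^ 10 - 95944309 * s ^ 11 + 17637814 * s ^ 12) / 16384

/-- the components of the gradient in the coordinates `C`, `t` -/
noncomputable def al (C t : ℝ) : ℝ := pp (sM C) (t ^ 2) / (sM C ^ 5 * C)

noncomputable def be (C t : ℝ) : ℝ := 2 * t * SS (sM C) (t ^ 2)

/-- the test function on `ℝ⁴` -/
noncomputable def Phi {k : ℕ} (a : ℝ) (x : Fin (k + 1) → ℝ) : ℝ := uu (sM (Cc a x)) (tt a x)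

end Pool.Agent.Lib.MP_b8b490_an.Low
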