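import Pool.Agent.Lib.MP_b8b490_an.Low.Defs
import Pool.Agent.Lib.MP_b8b490_an.Four.C5

open MeasureTheory Set Filter Topology
open scoped ENNReal

namespace Pool.Agent.Lib.MP_b8b490_an.Low

open Pool.Agent.Lib.MP_b8b490_an.Four

theorem EnCt_pow {c D E W : ℝ} (hc : 0 < c) (hD : 0 < D) (hE : 0 ≤ E) :
    4 * Real.pi * c ^ 4 * D * W * Real.sqrt (E / (c ^ 2 * D)) ^ 4 =
      4 * Real.pi * W / D * E ^ 2 := by
  have hD2 : 0 < c ^ 2 * D := by positivity
  have h0 : 0 ≤ E / (c ^ 2 * D) := div_nonneg hE hD2.le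
  have h1 : Real.sqrt (E / (c ^ 2 * D)) ^ 4 = (E / (c ^ 2 * D)) ^ 2 := by
    rw [show (4 : ℕ) = 2 * 2 from rfl, pow_mul, Real.sq_sqrt h0]
  rw [h1]
  field_simp

theorem EnCt_meas_sM : Measurable sM := by
  unfold sM
  fun_prop

theorem EnCt_meas_al : Measurable fun p : ℝ × ℝ => al p.1 p.2 := by
  have h := EnCt_meas_sM
  unfold al pp dQ dB1 dB3 dB5
  fun_prop

theorem EnCt_meas_be : Measurable fun p : ℝ × ℝ => be p.1 p.2 := by
  have h := EnCt_meas_sM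
  unfold be SS B1 B3 B5
  fun_prop

/-- the energy in the coordinates `(C, t)`; compare `Four.energy_le` in `Four/C5.lean` -/
theorem energy_Ct {a : ℝ} (ha0 : 0 < a) :
    ∫⁻ x in ring (k := 3) a, ENNReal.ofReal (euc (fun i => fld a al be i x) ^ 4) ≤
      ∫⁻ q in Ioo (1 : ℝ) (2 / a + 1) ×ˢ Ioo (-1 : ℝ) 1,
        ENNReal.ofReal (4 * Real.pi *
          (Real.sqrt (q.1 ^ 2 - 1) * Real.sqrt (1 - q.2 ^ 2)) / (q.1 ^ 2 - q.2 ^ 2) *
          (al q.1 q.2 ^ 2 * (q.1 ^ 2 - 1) + be q.1 q.2 ^ 2 * (1 - q.2 ^ 2)) ^ 2) := by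
  set M : ℝ := 2 / a + 1 with hM
  set S : Set (ℝ × ℝ) := {p : ℝ × ℝ | 1 < p.1 ∧ p.1 < M} with hS
  have hSm : MeasurableSet S :=
    ((isOpen_lt continuous_const continuous_fst).inter
      (isOpen_lt continuous_fst continuous_const)).measurableSet
  have hαm := EnCt_meas_al
  have hβm := EnCt_meas_be
  set f : ℝ × ℝ → ℝ≥0∞ := S.indicator fun q => ENNReal.ofReal
    (Real.sqrt ((al q.1 q.2 ^ 2 * (q.1 ^ 2 - 1) + be q.1 q.2 ^ 2 * (1 - q.2 ^ 2)) /
      ((a / 2) ^ 2 * (q.1 ^ 2 - q.2 ^ 2))) ^ 4) with hf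
  have hfm : Measurable f := by
    refine Measurable.indicator ?_ hSm
    refine ENNReal.measurable_ofReal.comp ?_
    refine Measurable.pow_const ?_ _
    refine Real.continuous_sqrt.measurable.comp ?_
    refine Measurable.div ?_ (by fun_prop)
    exact ((hαm.pow_const 2).mul (by fun_prop)).add ((hβm.pow_const 2).mul (by fun_prop))
  have hring : MeasurableSet (ring (k := 3) a) := by
    refine MeasurableSet.diff ?_ (isClosed_slit a).measurableSet
    have h1 : {x : Fin (3 + 1) → ℝ | euc x < 1} = {x | rr 0 x < 1} := by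
      ext x
      rw [mem_ofPred_eq, mem_ofPred_eq, rr_zero_eq]
    rw [h1]
    exact (isOpen_lt (continuous_rr 0) continuous_const).measurableSet
  have hstep1 : ∫⁻ x in ring (k := 3) a,
      ENNReal.ofReal (euc (fun i => fld a al be i x) ^ 4) ≤
      ∫⁻ x in ring (k := 3) a, f (Cc a x, tt a x) := by
    refine setLIntegral_mono' hring fun x hx => ?_
    have h1 := Cc_lt_of_ring ha0 hx
    have h2 : (Cc a x, tt a x) ∈ S := h1
    rw [hf, indicator_of_mem h2, fld_norm ha0 hx.2, rr_mul_rr ha0 x]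
  refine hstep1.trans ((setLIntegral_le_lintegral _ _).trans ?_)
  rw [lintegral_Ct ha0 hfm]
  have hset : Ioo (1 : ℝ) M ×ˢ Ioo (-1 : ℝ) 1 = S ∩ (Ioi (1 : ℝ) ×ˢ Ioo (-1 : ℝ) 1) := by
    ext q
    simp only [mem_prod, mem_Ioo, mem_inter_iff, mem_Ioi, hS, mem_ofPred_eq]
    constructor
    · rintro ⟨⟨h1, h2⟩, h3⟩
      exact ⟨⟨h1, h2⟩, h1, h3⟩
    · rintro ⟨⟨h1, h2⟩, _, h3⟩
      exact ⟨⟨h1, h2⟩, h3⟩
  rw [hset, ← Measure.restrict_restrict hSm, ← lintegral_indicator hSm]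
  refine setLIntegral_mono' (measurableSet_Ioi.prod measurableSet_Ioo) fun q hq => ?_
  by_cases hqS : q ∈ S
  · rw [indicator_of_mem hqS, hf, indicator_of_mem hqS]
    have h1 : 1 < q.1 := hqS.1
    have h2 : -1 < q.2 := hq.2.1
    have h3 : q.2 < 1 := hq.2.2
    have h4 : 0 < 1 - q.2 ^ 2 := by nlinarith
    have h5 : 0 < q.1 ^ 2 - 1 := by nlinarith
    have hD : 0 < q.1 ^ 2 - q.2 ^ 2 := by linarith
    have hE : 0 ≤ al q.1 q.2 ^ 2 * (q.1 ^ 2 - 1) + be q.1 q.2 ^ 2 * (1 - q.2 ^ 2) := by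
      positivity
    have hc : 0 < a / 2 := by linarith
    rw [← ENNReal.ofReal_mul (by positivity)]
    exact (congrArg ENNReal.ofReal (EnCt_pow hc hD hE)).le
  · rw [indicator_of_notMem hqS, hf, indicator_of_notMem hqS, mul_zero]

end Pool.Agent.Lib.MP_b8b490_an.Low
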