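import Pool.Agent.Lib.MP_b8b490_an.Low.Cert
import Pool.Agent.Lib.MP_b8b490_an.Low.EnCt

open MeasureTheory Set Filter Topology
open scoped ENNReal

namespace Pool.Agent.Lib.MP_b8b490_an.Low

open Pool.Agent.Lib.MP_b8b490_an.Four

theorem Energy_sq_le {t : ℝ} (h : t ∈ Icc (-1 : ℝ) 1) : t ^ 2 ≤ 1 := by
  have := abs_le.2 ⟨h.1, h.2⟩
  rw [← sq_abs]
  exact pow_le_one₀ (abs_nonneg _) this

theorem Energy_ofReal {f : ℝ → ℝ} {u v : ℝ} (huv : u ≤ v) (hf : ContinuousOn f (Icc u v))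
    (h0 : ∀ x ∈ Ioo u v, 0 ≤ f x) :
    ∫⁻ x in Ioo u v, ENNReal.ofReal (f x) = ENNReal.ofReal (∫ x in u..v, f x) := by
  rw [intervalIntegral.integral_of_le huv, integral_Ioc_eq_integral_Ioo,
    ofReal_integral_eq_lintegral_ofReal]
  · exact hf.integrableOn_Icc.mono_set Ioo_subset_Icc_self
  · exact (ae_restrict_iff' measurableSet_Ioo).2 (ae_of_all _ fun x hx => h0 x hx)

/-- the basic facts on `wC` -/
theorem Energy_wC {σ : ℝ} (hσ : 0 < σ) (hσ1 : σ < 1) :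
    0 < 1 - σ ^ 6 ∧ 0 < wC σ ∧ wC σ ^ 2 = 1 / (1 - σ ^ 6) ∧ 1 < wC σ ∧ sM (wC σ) = σ := by
  have h4 : σ ^ 6 < 1 := pow_lt_one₀ hσ.le hσ1 (by norm_num)
  have h4' : 0 < σ ^ 6 := by positivity
  have hy : 0 < 1 - σ ^ 6 := by linarith
  have hw0 : 0 < wC σ := by
    unfold wC
    have := Real.sqrt_pos.2 hy
    positivity
  have hw2 : wC σ ^ 2 = 1 / (1 - σ ^ 6) := by
    unfold wC
    rw [div_pow, one_pow, Real.sq_sqrt hy.le]
  have hw1 : 1 < wC σ := by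
    have : 1 < wC σ ^ 2 := by
      rw [hw2, lt_div_iff₀ hy]
      linarith
    nlinarith
  refine ⟨hy, hw0, hw2, hw1, ?_⟩
  rw [sM, hw2, one_div_one_div]
  have : 1 - (1 - σ ^ 6) = σ ^ 6 := by ring
  rw [this, ← Real.rpow_natCast σ 6, ← Real.rpow_mul hσ.le]
  norm_num

/-- the integrand over `t` -/
noncomputable def Energy_H (σ t : ℝ) : ℝ :=
  Real.sqrt (1 - t ^ 2) * NN σ (t ^ 2) / (1 - t ^ 2 * (1 - σ ^ 6))

theorem Energy_H_cont {σ : ℝ} (hσ : 0 < σ) (hσ1 : σ < 1) :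
    ContinuousOn (fun t : ℝ => Energy_H σ t) (Icc (-1) 1) := by
  have hy := (Energy_wC hσ hσ1).1
  have h4' : 0 < σ ^ 6 := by positivity
  unfold Energy_H
  refine ContinuousOn.div ?_ (by fun_prop) ?_
  · refine Continuous.continuousOn ?_
    unfold NN pp SS
    fun_prop
  · intro t ht
    have h := Energy_sq_le ht
    have : 0 < 1 - t ^ 2 * (1 - σ ^ 6) := by nlinarith [sq_nonneg t]
    exact this.ne'

theorem Energy_H_nonneg {σ t : ℝ} (hσ : 0 < σ) (hσ1 : σ < 1) (ht : t ∈ Icc (-1 : ℝ) 1) :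
    0 ≤ Energy_H σ t := by
  have hy := (Energy_wC hσ hσ1).1
  have h4' : 0 < σ ^ 6 := by positivity
  have h := Energy_sq_le ht
  have h5 : 0 < 1 - t ^ 2 * (1 - σ ^ 6) := by nlinarith [sq_nonneg t]
  unfold Energy_H
  refine div_nonneg (mul_nonneg (Real.sqrt_nonneg _) ?_) h5.le
  unfold NN
  positivity

theorem Energy_inner {σ : ℝ} (hσ : 0 < σ) (hσ1 : σ < 1) :
    ∫⁻ t in Ioo (-1 : ℝ) 1, ENNReal.ofReal (12 * Real.pi / (1 - σ ^ 6) * Energy_H σ t) =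
      ENNReal.ofReal (2 * Real.pi ^ 2 * (3 / (1 - σ ^ 6) * GG σ)) := by
  have hy := (Energy_wC hσ hσ1).1
  have hc : 0 ≤ 12 * Real.pi / (1 - σ ^ 6) := div_nonneg (by positivity) hy.le
  have hcont : ContinuousOn (fun t : ℝ => 12 * Real.pi / (1 - σ ^ 6) * Energy_H σ t) (Icc (-1) 1) :=
    continuousOn_const.mul (Energy_H_cont hσ hσ1)
  rw [Energy_ofReal (by norm_num) hcont (fun t ht => mul_nonneg hc
    (Energy_H_nonneg hσ hσ1 (Ioo_subset_Icc_self ht)))]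
  congr 1
  rw [intervalIntegral.integral_const_mul]
  have h2 : GG σ = 2 / Real.pi * ∫ t in (-1 : ℝ)..1, Energy_H σ t := rfl
  rw [h2]
  have hpi : Real.pi ≠ 0 := Real.pi_ne_zero
  field_simp
  ring

/-- the integrand after the substitution -/
theorem Energy_sub {σ t : ℝ} (hσ : 0 < σ) (hσ1 : σ < 1)
    (ht : t ∈ Icc (-1 : ℝ) 1) :
    3 * σ ^ 5 * wC σ ^ 3 * (4 * Real.pi *
          (Real.sqrt (wC σ ^ 2 - 1) * Real.sqrt (1 - t ^ 2)) / (wC σ ^ 2 - t ^ 2) *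
          (al (wC σ) t ^ 2 * (wC σ ^ 2 - 1) + be (wC σ) t ^ 2 * (1 - t ^ 2)) ^ 2) =
      12 * Real.pi / (1 - σ ^ 6) * Energy_H σ t := by
  obtain ⟨hy, hw0, hw2, hw1, hs⟩ := Energy_wC hσ hσ1
  have h4' : 0 < σ ^ 6 := by positivity
  have ht2 := Energy_sq_le ht
  have e1 : wC σ ^ 2 - t ^ 2 = wC σ ^ 2 * (1 - t ^ 2 * (1 - σ ^ 6)) := by
    rw [hw2]
    field_simp
  have e2 : wC σ ^ 2 - 1 = (σ ^ 3 * wC σ) ^ 2 := by
    have : (σ ^ 3 * wC σ) ^ 2 = σ ^ 6 * wC σ ^ 2 := by ring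
    rw [this, hw2]
    field_simp
    ring
  have hz : 0 < σ ^ 3 * wC σ := by positivity
  have e0 : Real.sqrt ((σ ^ 3 * wC σ) ^ 2) = σ ^ 3 * wC σ := Real.sqrt_sq hz.le
  have n1 : 0 < 1 - t ^ 2 * (1 - σ ^ 6) := by nlinarith [sq_nonneg t]
  have e3 : al (wC σ) t = pp σ (t ^ 2) / (σ ^ 5 * wC σ) := by
    unfold al
    rw [hs]
  have e4 : be (wC σ) t = 2 * t * SS σ (t ^ 2) := by
    unfold be
    rw [hs]
  rw [e1, e2, e0, e3, e4]
  have e7 : 12 * Real.pi / (1 - σ ^ 6) = 12 * Real.pi * wC σ ^ 2 := by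
    rw [hw2]
    ring
  rw [e7]
  unfold Energy_H NN
  set P := pp σ (t ^ 2)
  set S := SS σ (t ^ 2)
  set V := Real.sqrt (1 - t ^ 2)
  set W := wC σ
  set N := 1 - t ^ 2 * (1 - σ ^ 6) with hN
  have hN0 : N ≠ 0 := n1.ne'
  clear_value P S V W N
  field_simp
  ring

/-- the energy; compare `Four.energy_al` in `Four/D2.lean` -/
theorem energy {a : ℝ} (ha0 : 0 < a) {M : ℝ} (hM : M = 2 / a + 1) :
    ∫⁻ x in ring (k := 3) a, ENNReal.ofReal (euc (fun i => fld a al be i x) ^ 4) ≤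
      ENNReal.ofReal (2 * Real.pi ^ 2 * (LL (sM M) + ∫ σ in (0 : ℝ)..sM M, RR σ)) := by
  have hM1 : 1 < M := by
    rw [hM]
    have : 0 < 2 / a := by positivity
    linarith
  obtain ⟨s0, s1, -⟩ := sM_mem hM1
  refine (energy_Ct ha0).trans ?_
  rw [← hM]
  set F : ℝ × ℝ → ℝ := fun q => 4 * Real.pi *
          (Real.sqrt (q.1 ^ 2 - 1) * Real.sqrt (1 - q.2 ^ 2)) / (q.1 ^ 2 - q.2 ^ 2) *
          (al q.1 q.2 ^ 2 * (q.1 ^ 2 - 1) + be q.1 q.2 ^ 2 * (1 - q.2 ^ 2)) ^ 2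
    with hF
  have hFm : Measurable F := by
    rw [hF]
    unfold al be pp SS dQ dB1 dB3 dB5 B1 B3 B5 sM
    fun_prop
  have h1 : ∫⁻ q in Ioo (1 : ℝ) M ×ˢ Ioo (-1 : ℝ) 1, ENNReal.ofReal (F q) =
      ∫⁻ C in Ioo (1 : ℝ) M, ∫⁻ t in Ioo (-1 : ℝ) 1, ENNReal.ofReal (F (C, t)) := by
    rw [Measure.volume_eq_prod, ← Measure.prod_restrict,
      lintegral_prod _ (hFm.ennreal_ofReal).aemeasurable]
  rw [h1, lintegral_wC hM1 (fun C => ∫⁻ t in Ioo (-1 : ℝ) 1, ENNReal.ofReal (F (C, t)))]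
  have h2 : ∫⁻ σ in Ioo 0 (sM M), ENNReal.ofReal (3 * σ ^ 5 * wC σ ^ 3) *
      ∫⁻ t in Ioo (-1 : ℝ) 1, ENNReal.ofReal (F (wC σ, t)) ≤
      ∫⁻ σ in Ioo 0 (sM M), ENNReal.ofReal (2 * Real.pi ^ 2 * (3 / (1 - σ ^ 6) + RR σ)) := by
    refine setLIntegral_mono' measurableSet_Ioo fun σ hσ => ?_
    have hσ1 : σ < 1 := hσ.2.trans s1
    have hw0 : 0 ≤ 3 * σ ^ 5 * wC σ ^ 3 := by
      have : 0 ≤ wC σ := by unfold wC; positivity
      have := hσ.1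
      positivity
    have hy := (Energy_wC hσ.1 hσ1).1
    have h3 : ENNReal.ofReal (3 * σ ^ 5 * wC σ ^ 3) *
      ∫⁻ t in Ioo (-1 : ℝ) 1, ENNReal.ofReal (F (wC σ, t)) =
      ENNReal.ofReal (2 * Real.pi ^ 2 * (3 / (1 - σ ^ 6) * GG σ)) := by
      rw [← Energy_inner hσ.1 hσ1, ← lintegral_const_mul' _ _ ENNReal.ofReal_ne_top]
      refine setLIntegral_congr_fun measurableSet_Ioo fun t ht => ?_
      show ENNReal.ofReal (3 * σ ^ 5 * wC σ ^ 3) * ENNReal.ofReal (F (wC σ, t)) =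
        ENNReal.ofReal (12 * Real.pi / (1 - σ ^ 6) * Energy_H σ t)
      rw [← ENNReal.ofReal_mul hw0]
      congr 1
      exact Energy_sub hσ.1 hσ1 (Ioo_subset_Icc_self ht)
    rw [h3]
    refine ENNReal.ofReal_le_ofReal ?_
    have h4 := G_le hσ.1 hσ1
    refine mul_le_mul_of_nonneg_left ?_ (by positivity)
    have h5 : 3 / (1 - σ ^ 6) * GG σ = 3 / (1 - σ ^ 6) + (3 * (GG σ - 1)) / (1 - σ ^ 6) := by
      field_simp
      ring
    rw [h5]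
    have h6 : (3 * (GG σ - 1)) / (1 - σ ^ 6) ≤ RR σ := by
      rw [div_le_iff₀ hy]
      linarith
    linarith
  refine h2.trans (le_of_eq ?_)
  have hRc : Continuous RR := by
    unfold RR
    fun_prop
  have h3c : ContinuousOn (fun σ : ℝ => 3 / (1 - σ ^ 6)) (Icc 0 (sM M)) := by
    refine ContinuousOn.div continuousOn_const (by fun_prop) fun x hx => ?_
    have : x ^ 6 < 1 := pow_lt_one₀ hx.1 (hx.2.trans_lt s1) (by norm_num)
    linarith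
  rw [Energy_ofReal s0.le]
  · congr 1
    rw [intervalIntegral.integral_const_mul]
    congr 1
    rw [intervalIntegral.integral_add, integral_three_div s0.le s1]
    · rfl
    · refine ContinuousOn.intervalIntegrable ?_
      rw [uIcc_of_le s0.le]
      exact h3c
    · exact hRc.intervalIntegrable _ _
  · exact continuousOn_const.mul (h3c.add hRc.continuousOn)
  · intro σ hσ
    have hσ1 : σ < 1 := hσ.2.trans s1
    have hy := (Energy_wC hσ.1 hσ1).1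
    have h4 := G_le hσ.1 hσ1
    have h5 := GG_nonneg hσ.1 hσ1
    have h6 : (3 * (GG σ - 1)) / (1 - σ ^ 6) ≤ RR σ := by
      rw [div_le_iff₀ hy]
      linarith
    have h7 : 0 ≤ 3 / (1 - σ ^ 6) * GG σ := mul_nonneg (div_nonneg (by norm_num) hy.le) h5
    have h8 : 3 / (1 - σ ^ 6) * GG σ = 3 / (1 - σ ^ 6) + (3 * (GG σ - 1)) / (1 - σ ^ 6) := by
      field_simp
      ring
    have h9 : 0 ≤ 3 / (1 - σ ^ 6) + RR σ := by linarith
    positivity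

end Pool.Agent.Lib.MP_b8b490_an.Low
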