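import Pool.Agent.Lib.MP_b8b490_an.Low.Defs
import Pool.Agent.Lib.MP_b8b490_an.B1

open MeasureTheory Set Filter Topology
open scoped ENNReal

namespace Pool.Agent.Lib.MP_b8b490_an.Low

open Pool.Agent.Lib.MP_b8b490_an.Four

theorem Far_pos {s x : ℝ} (h1 : s < 1) (hx0 : 0 ≤ x) (hx : x ≤ s) : 0 < 1 - x ^ 6 := by
  have : x ^ 6 < 1 := pow_lt_one₀ hx0 (lt_of_le_of_lt hx h1) (by norm_num)
  linarith

theorem Far_int {r s : ℝ} (h0 : 0 ≤ r) (h : r ≤ s) (h1 : s < 1) :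
    IntervalIntegrable (fun σ : ℝ => 3 / (1 - σ ^ 6)) volume r s := by
  refine ContinuousOn.intervalIntegrable ?_
  refine ContinuousOn.div continuousOn_const (by fun_prop) ?_
  intro x hx
  rw [Set.uIcc_of_le h] at hx
  exact (Far_pos h1 (h0.trans hx.1) hx.2).ne'

theorem LL_mono {s s' : ℝ} (h0 : 0 ≤ s) (h : s ≤ s') (h1 : s' < 1) : LL s ≤ LL s' := by
  have e1 : LL s = ∫ σ in (0 : ℝ)..s, 3 / (1 - σ ^ 6) :=
    (integral_three_div h0 (lt_of_le_of_lt h h1)).symm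
  have e2 : LL s' = ∫ σ in (0 : ℝ)..s', 3 / (1 - σ ^ 6) :=
    (integral_three_div (h0.trans h) h1).symm
  rw [e1, e2, ← intervalIntegral.integral_add_adjacent_intervals
    (Far_int le_rfl h0 (lt_of_le_of_lt h h1)) (Far_int h0 h h1)]
  have h3 : 0 ≤ ∫ σ in s..s', 3 / (1 - σ ^ 6) := by
    refine intervalIntegral.integral_nonneg h ?_
    intro x hx
    exact div_nonneg (by norm_num) (Far_pos h1 (h0.trans hx.1) hx.2).le
  linarith

theorem Far_aux {s P T : ℝ} (h0 : 0 ≤ s) (h1 : s ≤ 1) (hP : -13312 ≤ P) (hT0 : 0 ≤ T)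
    (hT1 : T ≤ 1) : -13 * (1 - s) ≤ s * (1 - s) * P / 1024 * T := by
  have h2 : 0 ≤ 1 - s := by linarith
  have hw0 : 0 ≤ s * (1 - s) * T := by positivity
  have hw1 : s * (1 - s) * T ≤ 1 - s := by
    have h3 : s * T ≤ 1 := mul_le_one₀ h1 hT0 hT1
    have h4 : (1 - s) * (s * T) ≤ (1 - s) * 1 := mul_le_mul_of_nonneg_left h3 h2
    calc s * (1 - s) * T = (1 - s) * (s * T) := by ring
      _ ≤ (1 - s) * 1 := h4
      _ = 1 - s := by ring
  have h5 : s * (1 - s) * T * (-13312) ≤ s * (1 - s) * T * P := mul_le_mul_of_nonneg_left hP hw0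
  have e : s * (1 - s) * P / 1024 * T = s * (1 - s) * T * P / 1024 := by ring
  rw [e, le_div_iff₀ (by norm_num)]
  linarith

theorem Far_B {s t : ℝ} (h0 : 0 ≤ s) (h1 : s ≤ 1) (ht0 : -1 ≤ t) (ht1 : t ≤ 1) :
    -39 * (1 - s) ≤ B1 s * t ^ 2 + B3 s * t ^ 6 + B5 s * t ^ 10 := by
  have ha : |t| ≤ 1 := abs_le.2 ⟨ht0, ht1⟩
  have hT : ∀ n : ℕ, 0 ≤ t ^ (2 * n) ∧ t ^ (2 * n) ≤ 1 := by
    intro n
    have e : t ^ (2 * n) = |t| ^ (2 * n) := by
      rw [pow_mul, pow_mul, sq_abs]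
    rw [e]
    exact ⟨pow_nonneg (abs_nonneg t) _, pow_le_one₀ (abs_nonneg t) ha⟩
  have q2 : 0 ≤ s ^ 2 := by positivity
  have q3 : 0 ≤ s ^ 3 := by positivity
  have r2 : s ^ 2 ≤ 1 := pow_le_one₀ h0 h1
  have r3 : s ^ 3 ≤ 1 := pow_le_one₀ h0 h1
  have b1 := Far_aux (P := -156 - 2574 * s + 4276 * s ^ 2 - 3202 * s ^ 3) h0 h1 (by linarith)
    (hT 1).1 (hT 1).2
  have b3 := Far_aux (P := 349 + 4988 * s - 7423 * s ^ 2 - 77 * s ^ 3) h0 h1 (by linarith)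
    (hT 3).1 (hT 3).2
  have b5 := Far_aux (P := -1003 - 3830 * s + 3197 * s ^ 2 + 3247 * s ^ 3) h0 h1 (by linarith)
    (hT 5).1 (hT 5).2
  norm_num only at b1 b3 b5
  unfold B1 B3 B5
  linarith

theorem Far_Q {s : ℝ} (h0 : 0 ≤ s) (h1 : s ≤ 1) : QQ 1 ≤ QQ s := by
  have h2 : 0 ≤ (1 - s) * (454 + 20 * s + 223 * s ^ 2) := by
    have : 0 ≤ 1 - s := by linarith
    positivity
  have e : QQ s - QQ 1 = (1 - s) * (454 + 20 * s + 223 * s ^ 2) / 1024 := by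
    unfold QQ
    ring
  have h3 : 0 ≤ QQ s - QQ 1 := by
    rw [e]
    positivity
  linarith

/-- the test function outside the unit ball; there `C ≥ 2 / a - 1` -/
theorem le_Phi {a : ℝ} (ha0 : 0 < a) (ha1 : a < 1) {x : Fin (3 + 1) → ℝ} (hx : 1 ≤ euc x) :
    LL (sM (2 / a - 1)) + QQ 1 - 100 * (1 - sM (2 / a - 1)) ≤ Phi a x := by
  obtain ⟨ht0, ht1, -⟩ := tt_le ha0 x
  have hr0 : 1 ≤ rr 0 x := by
    rw [rr_zero_eq]
    exact hx
  have hra : rr 0 x - rr a x ≤ a := by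
    have h := ht1
    unfold tt at h
    rw [div_le_iff₀ ha0] at h
    linarith
  have hC0 : 1 < 2 / a - 1 := by
    have : 2 < 2 / a := by
      rw [lt_div_iff₀ ha0]
      linarith
    linarith
  have hC : 2 / a - 1 ≤ Cc a x := by
    unfold Cc
    rw [le_div_iff₀ ha0, sub_mul, div_mul_cancel₀ _ ha0.ne']
    linarith
  obtain ⟨s0, s1, s2⟩ := sM_mem hC0
  obtain ⟨c0, c1, c2⟩ := sM_mem (lt_of_lt_of_le hC0 hC)
  have hs : sM (2 / a - 1) ≤ sM (Cc a x) := by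
    have h6 : sM (2 / a - 1) ^ 6 ≤ sM (Cc a x) ^ 6 := by
      have h7 : 1 / Cc a x ^ 2 ≤ 1 / (2 / a - 1) ^ 2 := by
        have h8 : 0 < 2 / a - 1 := by linarith
        exact one_div_le_one_div_of_le (by positivity) (pow_le_pow_left₀ h8.le hC 2)
      linarith
    exact (pow_le_pow_iff_left₀ s0.le c0.le (by norm_num)).1 h6
  have h1 := LL_mono s0.le hs c1
  have h2 := Far_Q c0.le c1.le
  have h3 := Far_B c0.le c1.le ht0 ht1
  unfold Phi uu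
  linarith

end Pool.Agent.Lib.MP_b8b490_an.Low
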