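import Pool.Agent.Lib.MP_b8b490_an.Low.Defs
import Pool.Agent.Lib.MP_b8b490_an.B2

open MeasureTheory Set Filter Topology
open scoped ENNReal

namespace Pool.Agent.Lib.MP_b8b490_an.Low

open Pool.Agent.Lib.MP_b8b490_an.Four

theorem Grad_arctan (x c : ℝ) :
    HasDerivAt (fun s : ℝ => Real.arctan ((2 * s + c) / Real.sqrt 3))
    (1 / (1 + ((2 * x + c) / Real.sqrt 3) ^ 2) * (2 / Real.sqrt 3)) x := by
  have h1 : HasDerivAt (fun s : ℝ => (2 * s + c) / Real.sqrt 3) (2 / Real.sqrt 3) x := by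
    have := (((hasDerivAt_id' x).const_mul 2).add_const c).div_const (Real.sqrt 3)
    simpa using this
  exact h1.arctan

theorem Grad_LL {x : ℝ} (hx0 : 0 ≤ x) (hx1 : x < 1) : HasDerivAt LL (3 / (1 - x ^ 6)) x := by
  have h3 : 0 < Real.sqrt 3 := Real.sqrt_pos.2 (by norm_num)
  have hss : Real.sqrt 3 ^ 2 = 3 := Real.sq_sqrt (by norm_num)
  have hx2 : 0 < 1 - x ^ 6 := by
    have : x ^ 6 < 1 := pow_lt_one₀ hx0 hx1 (by norm_num)
    linarith
  have a1 : (1 + x) ≠ 0 := by positivity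
  have a2 : (1 + x + x ^ 2) ≠ 0 := by positivity
  have a3 : (1 - x + x ^ 2) ≠ 0 := by
    have : 0 < 1 - x + x ^ 2 := by nlinarith [sq_nonneg (x - 1 / 2)]
    exact this.ne'
  have d1 : HasDerivAt (fun σ : ℝ => Real.log (1 + σ)) (1 / (1 + x)) x := by
    have := ((hasDerivAt_id x).const_add 1).log a1
    simpa using this
  have d2 : HasDerivAt (fun σ : ℝ => Real.log (1 + σ + σ ^ 2))
      ((1 + 2 * x) / (1 + x + x ^ 2)) x := by
    have h : HasDerivAt (fun σ : ℝ => 1 + σ + σ ^ 2) (1 + 2 * x) x := by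
      have := ((hasDerivAt_id' x).const_add 1).fun_add (hasDerivAt_pow 2 x)
      simpa using this
    exact h.log a2
  have d3 : HasDerivAt (fun σ : ℝ => Real.log (1 - σ + σ ^ 2))
      ((-1 + 2 * x) / (1 - x + x ^ 2)) x := by
    have h : HasDerivAt (fun σ : ℝ => 1 - σ + σ ^ 2) (-1 + 2 * x) x := by
      have := ((hasDerivAt_id' x).const_sub 1).fun_add (hasDerivAt_pow 2 x)
      simpa using this
    exact h.log a3
  have d4 : HasDerivAt (fun σ : ℝ => Real.log (1 - σ ^ 6)) (-(6 * x ^ 5) / (1 - x ^ 6)) x := by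
    have := ((hasDerivAt_pow 6 x).const_sub 1).log hx2.ne'
    simpa using this
  have d5 := Grad_arctan x 1
  have d6 : HasDerivAt (fun s : ℝ => Real.arctan ((2 * s - 1) / Real.sqrt 3))
      (1 / (1 + ((2 * x - 1) / Real.sqrt 3) ^ 2) * (2 / Real.sqrt 3)) x := by
    have := Grad_arctan x (-1)
    simpa only [← sub_eq_add_neg] using this
  have d7 := (d5.fun_add d6).const_mul (Real.sqrt 3 / 2)
  have := ((((d1.fun_add (d2.const_mul (3 / 4))).fun_add (d3.const_mul (1 / 4))).fun_sub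
    (d4.div_const 2)).fun_add d7)
  refine HasDerivAt.congr_deriv (f := LL) this ?_
  have e5 : 1 / (1 + ((2 * x + 1) / Real.sqrt 3) ^ 2) * (2 / Real.sqrt 3) =
      3 / (4 * (1 + x + x ^ 2)) * (2 / Real.sqrt 3) := by
    congr 1
    rw [div_pow, hss]
    field_simp
    ring
  have e6 : 1 / (1 + ((2 * x - 1) / Real.sqrt 3) ^ 2) * (2 / Real.sqrt 3) =
      3 / (4 * (1 - x + x ^ 2)) * (2 / Real.sqrt 3) := by
    congr 1
    rw [div_pow, hss]
    field_simp
    ring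
  rw [e5, e6]
  have e : 1 - x ^ 6 = (1 - x) * (1 + x) * (1 + x + x ^ 2) * (1 - x + x ^ 2) := by ring
  have a4 : (1 - x) ≠ 0 := by linarith [hx1] |> ne_of_gt
  rw [e]
  field_simp
  ring

theorem Grad_quint (a0 a1 a2 a3 s : ℝ) :
    HasDerivAt (fun s : ℝ => s * (1 - s) * (a0 + a1 * s + a2 * s ^ 2 + a3 * s ^ 3) / 1024)
      ((a0 + 2 * (a1 - a0) * s + 3 * (a2 - a1) * s ^ 2 + 4 * (a3 - a2) * s ^ 3 -
        5 * a3 * s ^ 4) / 1024) s := by
  have e : (fun s : ℝ => s * (1 - s) * (a0 + a1 * s + a2 * s ^ 2 + a3 * s ^ 3) / 1024) =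
      fun s : ℝ => a0 / 1024 * s + (a1 - a0) / 1024 * s ^ 2 + (a2 - a1) / 1024 * s ^ 3 +
        (a3 - a2) / 1024 * s ^ 4 + (-a3) / 1024 * s ^ 5 := by
    funext s
    ring
  rw [e]
  have h := (((((hasDerivAt_id' s).const_mul (a0 / 1024)).fun_add
    ((hasDerivAt_pow 2 s).const_mul ((a1 - a0) / 1024))).fun_add
    ((hasDerivAt_pow 3 s).const_mul ((a2 - a1) / 1024))).fun_add
    ((hasDerivAt_pow 4 s).const_mul ((a3 - a2) / 1024))).fun_add
    ((hasDerivAt_pow 5 s).const_mul ((-a3) / 1024))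
  refine h.congr_deriv ?_
  norm_num
  ring

theorem Grad_QQ (s : ℝ) : HasDerivAt QQ (dQ s) s := by
  have e : QQ = fun s : ℝ => -434 / 1024 * s + 203 / 1024 * s ^ 2 + (-223) / 1024 * s ^ 3 := by
    funext s
    unfold QQ
    ring
  rw [e]
  have h := (((hasDerivAt_id' s).const_mul (-434 / 1024)).fun_add
    ((hasDerivAt_pow 2 s).const_mul (203 / 1024))).fun_add
    ((hasDerivAt_pow 3 s).const_mul ((-223) / 1024))
  refine h.congr_deriv ?_
  unfold dQ
  norm_num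
  ring

theorem Grad_B1 (s : ℝ) : HasDerivAt B1 (dB1 s) s := by
  have e : B1 = fun s : ℝ => s * (1 - s) * (-156 + (-2574) * s + 4276 * s ^ 2 + (-3202) * s ^ 3) /
      1024 := by
    funext s
    unfold B1
    ring
  rw [e]
  refine (Grad_quint _ _ _ _ s).congr_deriv ?_
  unfold dB1
  ring

theorem Grad_B3 (s : ℝ) : HasDerivAt B3 (dB3 s) s := by
  have e : B3 = fun s : ℝ => s * (1 - s) * (349 + 4988 * s + (-7423) * s ^ 2 + (-77) * s ^ 3) /
      1024 := by
    funext s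
    unfold B3
    ring
  rw [e]
  refine (Grad_quint _ _ _ _ s).congr_deriv ?_
  unfold dB3
  ring

theorem Grad_B5 (s : ℝ) : HasDerivAt B5 (dB5 s) s := by
  have e : B5 = fun s : ℝ => s * (1 - s) * (-1003 + (-3830) * s + 3197 * s ^ 2 + 3247 * s ^ 3) /
      1024 := by
    funext s
    unfold B5
    ring
  rw [e]
  refine (Grad_quint _ _ _ _ s).congr_deriv ?_
  unfold dB5
  ring

theorem Grad_sM {C : ℝ} (hC : 1 < C) : HasDerivAt sM (1 / (3 * sM C ^ 5 * C ^ 3)) C := by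
  obtain ⟨h1, h2, h3⟩ := sM_mem hC
  have hC0 : 0 < C := by linarith
  have hh : 1 - 1 / C ^ 2 = sM C ^ 6 := by linarith
  have hp : 0 < 1 - 1 / C ^ 2 := by rw [hh]; positivity
  have d1 : HasDerivAt (fun M : ℝ => 1 - 1 / M ^ 2) (2 / C ^ 3) C := by
    have h := ((hasDerivAt_pow 2 C).inv (by positivity)).const_sub 1
    have e : (fun M : ℝ => 1 - 1 / M ^ 2) = fun M : ℝ => 1 - (fun y : ℝ => y ^ 2)⁻¹ M := by
      funext M
      simp [one_div]
    rw [e]
    refine h.congr_deriv ?_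
    field_simp
    norm_num
    ring
  have d2 := d1.rpow_const (p := (1 : ℝ) / 6) (Or.inl hp.ne')
  have e : sM = fun M : ℝ => (1 - 1 / M ^ 2) ^ ((1 : ℝ) / 6) := rfl
  refine HasDerivAt.congr_deriv (f := sM) (by rw [e]; exact d2) ?_
  have h4 : (1 - 1 / C ^ 2) ^ ((1 : ℝ) / 6 - 1) = sM C / sM C ^ 6 := by
    rw [Real.rpow_sub_one hp.ne', ← hh]
    rfl
  rw [h4]
  field_simp
  norm_num

theorem Grad_uu {σ τ : ℝ → ℝ} {σ' τ' x : ℝ} (h0 : 0 < σ x) (h1 : σ x < 1)
    (hσ : HasDerivAt σ σ' x) (hτ : HasDerivAt τ τ' x) :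
    HasDerivAt (fun r => uu (σ r) (τ r))
      (3 * pp (σ x) (τ x ^ 2) / (1 - σ x ^ 6) * σ' + 2 * τ x * SS (σ x) (τ x ^ 2) * τ') x := by
  have hx2 : 0 < 1 - σ x ^ 6 := by
    have : σ x ^ 6 < 1 := pow_lt_one₀ h0.le h1 (by norm_num)
    linarith
  have c1 := (Grad_LL h0.le h1).comp x hσ
  have c2 := (Grad_QQ (σ x)).comp x hσ
  have c3 := ((Grad_B1 (σ x)).comp x hσ).mul (hτ.pow 2)
  have c4 := ((Grad_B3 (σ x)).comp x hσ).mul (hτ.pow 6)
  have c5 := ((Grad_B5 (σ x)).comp x hσ).mul (hτ.pow 10)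
  have c := (((c1.add c2).add c3).add c4).add c5
  refine HasDerivAt.congr_deriv (f := fun r => uu (σ r) (τ r)) c ?_
  simp only [Function.comp, pp, SS, Pi.pow_apply]
  field_simp
  norm_num
  ring

theorem hasDerivAt_Phi {k : ℕ} {a : ℝ} (ha : 0 < a) {x : Fin (k + 1) → ℝ} (hx : x ∉ slit a)
    (i : Fin (k + 1)) :
    HasDerivAt (fun s : ℝ => Phi a (Function.update x i s)) (fld a al be i x) (x i) := by
  have hC : 1 < Cc a x := (one_lt_Cc_iff ha x).mpr hx
  obtain ⟨h1, h2, h3⟩ := sM_mem hC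
  have hup : Function.update x i (x i) = x := Function.update_eq_self i x
  have e1 := hasDerivAt_Cc ha hx i
  have e2 := hasDerivAt_tt ha hx i
  have e3 : HasDerivAt (fun s : ℝ => sM (Cc a (Function.update x i s)))
      (1 / (3 * sM (Cc a x) ^ 5 * Cc a x ^ 3) * dC a i x) (x i) := by
    have hs : HasDerivAt sM (1 / (3 * sM (Cc a x) ^ 5 * Cc a x ^ 3))
        ((fun s : ℝ => Cc a (Function.update x i s)) (x i)) := by
      simp only [hup]
      exact Grad_sM hC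
    exact hs.comp (x i) e1
  have e4 := Grad_uu (σ := fun s : ℝ => sM (Cc a (Function.update x i s)))
    (τ := fun s : ℝ => tt a (Function.update x i s)) (by simpa only [hup] using h1)
    (by simpa only [hup] using h2) e3 e2
  refine HasDerivAt.congr_deriv (f := fun s : ℝ => Phi a (Function.update x i s)) e4 ?_
  simp only [hup, fld, al, be]
  rw [h3]
  have hC0 : 0 < Cc a x := by linarith
  field_simp

end Pool.Agent.Lib.MP_b8b490_an.Low
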