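import Pool.Agent.Lib.MP_b8b490_an.Low.Defs
import Pool.Agent.Lib.MP_b8b490_an.Four.D4a

open MeasureTheory Set Filter Topology
open scoped ENNReal

namespace Pool.Agent.Lib.MP_b8b490_an.Low

open Pool.Agent.Lib.MP_b8b490_an.Four

/-- the basic integrals -/
noncomputable def ii (s : ℝ) (k : ℕ) : ℝ :=
  ∫ t in (-1 : ℝ)..1, Real.sqrt (1 - t ^ 2) * (t ^ 2) ^ k / (1 - t ^ 2 * (1 - s ^ 6))

theorem Int_den {s : ℝ} (h0 : 0 < s) (h1 : s < 1) {t : ℝ} (ht : t ^ 2 ≤ 1) :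
    0 < 1 - t ^ 2 * (1 - s ^ 6) := by
  have h2 : 0 < s ^ 6 := by positivity
  have h3 : s ^ 6 ≤ 1 := pow_le_one₀ h0.le h1.le
  nlinarith [sq_nonneg t]

theorem Int_sq {t : ℝ} (h1 : -1 ≤ t) (h2 : t ≤ 1) : t ^ 2 ≤ 1 := by nlinarith

theorem cont_ii {s : ℝ} (h0 : 0 < s) (h1 : s < 1) (k : ℕ) :
    ContinuousOn (fun t : ℝ => Real.sqrt (1 - t ^ 2) * (t ^ 2) ^ k / (1 - t ^ 2 * (1 - s ^ 6)))
      (uIcc (-1) 1) := by
  rw [uIcc_of_le (by norm_num : (-1 : ℝ) ≤ 1)]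
  refine ContinuousOn.div (by fun_prop) (by fun_prop) ?_
  intro t ht
  exact (Int_den h0 h1 (Int_sq ht.1 ht.2)).ne'

/-- the antiderivative -/
noncomputable def Int_F (s t : ℝ) : ℝ :=
  (Real.arcsin t - s ^ 3 * Real.arcsin (s ^ 3 * t / Real.sqrt (1 - t ^ 2 * (1 - s ^ 6)))) / (1 - s ^ 6)

theorem Int_F_cont {s : ℝ} (h0 : 0 < s) (h1 : s < 1) : ContinuousOn (Int_F s) (Icc (-1) 1) := by
  unfold Int_F
  refine ContinuousOn.div_const ?_ _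
  refine ContinuousOn.sub Real.continuous_arcsin.continuousOn ?_
  refine ContinuousOn.mul continuousOn_const ?_
  refine Real.continuous_arcsin.comp_continuousOn ?_
  refine ContinuousOn.div (by fun_prop) (by fun_prop) ?_
  intro t ht
  exact (Real.sqrt_pos.2 (Int_den h0 h1 (Int_sq ht.1 ht.2))).ne'

theorem Int_F_deriv {s : ℝ} (h0 : 0 < s) (h1 : s < 1) {t : ℝ} (ht : t ∈ Ioo (-1 : ℝ) 1) :
    HasDerivAt (Int_F s) (Real.sqrt (1 - t ^ 2) * (t ^ 2) ^ 0 / (1 - t ^ 2 * (1 - s ^ 6))) t := by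
  have ht1 : t ^ 2 < 1 := by
    have := ht.1
    have := ht.2
    nlinarith
  have hy : 0 < 1 - s ^ 6 := by
    have : s ^ 6 < 1 := pow_lt_one₀ h0.le h1 (by norm_num)
    linarith
  have hD := Int_den h0 h1 ht1.le
  have hs6 : 0 < s ^ 6 := by positivity
  obtain ⟨D, hDd⟩ : ∃ D : ℝ, D = 1 - t ^ 2 * (1 - s ^ 6) := ⟨_, rfl⟩
  obtain ⟨r, hr⟩ : ∃ r : ℝ, r = Real.sqrt (1 - t ^ 2 * (1 - s ^ 6)) := ⟨_, rfl⟩
  obtain ⟨q, hq⟩ : ∃ q : ℝ, q = Real.sqrt (1 - t ^ 2) := ⟨_, rfl⟩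
  have hq0 : 0 < q := by
    rw [hq]
    exact Real.sqrt_pos.2 (by linarith)
  have hq2 : q ^ 2 = 1 - t ^ 2 := by
    rw [hq]
    exact Real.sq_sqrt (by linarith)
  have hr0 : 0 < r := by
    rw [hr]
    exact Real.sqrt_pos.2 hD
  have hr2 : r ^ 2 = 1 - t ^ 2 * (1 - s ^ 6) := by
    rw [hr]
    exact Real.sq_sqrt hD.le
  have d1 : HasDerivAt (fun t : ℝ => 1 - t ^ 2 * (1 - s ^ 6)) (-(2 * t * (1 - s ^ 6))) t := by
    have h := ((hasDerivAt_pow 2 t).mul_const (1 - s ^ 6)).const_sub 1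
    refine h.congr_deriv ?_
    norm_num
  have d2 : HasDerivAt (fun t : ℝ => Real.sqrt (1 - t ^ 2 * (1 - s ^ 6)))
      (-(2 * t * (1 - s ^ 6)) / (2 * r)) t := by
    have h := d1.sqrt hD.ne'
    rw [hr]
    exact h
  have d3 : HasDerivAt (fun t : ℝ => s ^ 3 * t) (s ^ 3) t := by
    have h := (hasDerivAt_id t).const_mul (s ^ 3)
    simpa using h
  have d4 : HasDerivAt (fun t : ℝ => s ^ 3 * t / Real.sqrt (1 - t ^ 2 * (1 - s ^ 6)))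
      ((s ^ 3 * r - s ^ 3 * t * (-(2 * t * (1 - s ^ 6)) / (2 * r))) / r ^ 2) t := by
    have h := d3.div d2 (by rw [← hr]; exact hr0.ne')
    rw [← hr] at h
    exact h
  have hv2 : 1 - (s ^ 3 * t / r) ^ 2 = (q / r) ^ 2 := by
    rw [div_pow, div_pow, hq2]
    field_simp
    rw [hr2]
    ring
  have hqr : 0 < q / r := by positivity
  have hvlt : (s ^ 3 * t / r) ^ 2 < 1 := by
    have : 0 < (q / r) ^ 2 := by positivity
    linarith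
  have hvabs := (sq_lt_one_iff_abs_lt_one _).1 hvlt
  have hv := abs_lt.1 hvabs
  have d5 := Real.hasDerivAt_arcsin (x := s ^ 3 * t / r) (by linarith [hv.1] : s ^ 3 * t / r ≠ -1)
    (by linarith [hv.2] : s ^ 3 * t / r ≠ 1)
  have d6 : HasDerivAt (fun t : ℝ => Real.arcsin (s ^ 3 * t / Real.sqrt (1 - t ^ 2 * (1 - s ^ 6))))
      (1 / Real.sqrt (1 - (s ^ 3 * t / r) ^ 2) *
        ((s ^ 3 * r - s ^ 3 * t * (-(2 * t * (1 - s ^ 6)) / (2 * r))) / r ^ 2)) t := by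
    rw [hr] at d5
    have h := d5.comp t d4
    rw [← hr] at h
    exact h
  have d7 := Real.hasDerivAt_arcsin (x := t) (by linarith [ht.1] : t ≠ -1) (by linarith [ht.2] : t ≠ 1)
  have d8 := (d7.sub (d6.const_mul (s ^ 3))).div_const (1 - s ^ 6)
  refine d8.congr_deriv ?_
  rw [hv2, Real.sqrt_sq hqr.le, ← hq, ← hr2, pow_zero, mul_one]
  have hr2' : r ^ 2 = 1 - t ^ 2 + t ^ 2 * s ^ 6 := by rw [hr2]; ring
  have hqq : q ^ 2 = 1 - t ^ 2 := hq2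
  have e1 : s ^ 3 * r - s ^ 3 * t * (-(2 * t * (1 - s ^ 6)) / (2 * r)) = s ^ 3 / r := by
    field_simp
    rw [hr2]
    ring
  rw [e1]
  field_simp
  rw [hr2', hqq]
  ring

/-- the antiderivative is `(arcsin t - s³ arcsin (s³ t / √(1 - t² y))) / y`, `y = 1 - s⁶`,
continuous on `[-1, 1]` -/
theorem ii_zero {s : ℝ} (h0 : 0 < s) (h1 : s < 1) : ii s 0 * (1 + s ^ 3) = Real.pi := by
  have hy : 0 < 1 - s ^ 6 := by
    have : s ^ 6 < 1 := pow_lt_one₀ h0.le h1 (by norm_num)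
    linarith
  have h := intervalIntegral.integral_eq_sub_of_hasDerivAt_of_le (by norm_num : (-1 : ℝ) ≤ 1)
    (Int_F_cont h0 h1) (fun t ht => Int_F_deriv h0 h1 ht) ((cont_ii h0 h1 0).intervalIntegrable)
  have hs : Real.sqrt (s ^ 6) = s ^ 3 := by
    have : s ^ 6 = (s ^ 3) ^ 2 := by ring
    rw [this, Real.sqrt_sq (by positivity)]
  have hs3 : (0 : ℝ) < s ^ 3 := by positivity
  have F1 : Int_F s 1 = (Real.pi / 2 - s ^ 3 * (Real.pi / 2)) / (1 - s ^ 6) := by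
    unfold Int_F
    have e : (1 : ℝ) - 1 ^ 2 * (1 - s ^ 6) = s ^ 6 := by ring
    rw [e, hs, mul_one, div_self hs3.ne', Real.arcsin_one]
  have F2 : Int_F s (-1) = (-(Real.pi / 2) + s ^ 3 * (Real.pi / 2)) / (1 - s ^ 6) := by
    unfold Int_F
    have e : (1 : ℝ) - (-1) ^ 2 * (1 - s ^ 6) = s ^ 6 := by ring
    have e2 : s ^ 3 * (-1) / s ^ 3 = -1 := by
      field_simp
    rw [e, hs, e2, Real.arcsin_neg_one]
    ring
  unfold ii
  rw [h, F1, F2]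
  have e6 : (1 : ℝ) - s ^ 6 = (1 - s ^ 3) * (1 + s ^ 3) := by ring
  have h3 : (1 : ℝ) - s ^ 3 ≠ 0 := by
    have : s ^ 3 < 1 := pow_lt_one₀ h0.le h1 (by norm_num)
    linarith
  have h4 : (1 : ℝ) + s ^ 3 ≠ 0 := by positivity
  rw [e6]
  field_simp
  ring

/-- `mom` is the moment on `[0, 1]` (`Four.D1`) -/
theorem ii_succ {s : ℝ} (h0 : 0 < s) (h1 : s < 1) (k : ℕ) :
    (1 - s ^ 6) * ii s (k + 1) = ii s k - 2 * mom k := by
  have hc : Continuous (fun t : ℝ => Real.sqrt (1 - t ^ 2) * (t ^ 2) ^ k) := by fun_prop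
  have hsplit : ∫ t in (-1 : ℝ)..1, Real.sqrt (1 - t ^ 2) * (t ^ 2) ^ k =
      (∫ t in (-1 : ℝ)..0, Real.sqrt (1 - t ^ 2) * (t ^ 2) ^ k) +
        ∫ t in (0 : ℝ)..1, Real.sqrt (1 - t ^ 2) * (t ^ 2) ^ k :=
    (intervalIntegral.integral_add_adjacent_intervals (hc.intervalIntegrable _ _)
      (hc.intervalIntegrable _ _)).symm
  have heven : ∫ t in (-1 : ℝ)..0, Real.sqrt (1 - t ^ 2) * (t ^ 2) ^ k =
      ∫ t in (0 : ℝ)..1, Real.sqrt (1 - t ^ 2) * (t ^ 2) ^ k := by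
    have h2 : ∫ t in (0 : ℝ)..1, Real.sqrt (1 - (-t) ^ 2) * ((-t) ^ 2) ^ k =
        ∫ t in (-1 : ℝ)..(-0), Real.sqrt (1 - t ^ 2) * (t ^ 2) ^ k :=
      intervalIntegral.integral_comp_neg (fun t => Real.sqrt (1 - t ^ 2) * (t ^ 2) ^ k)
    rw [neg_zero] at h2
    rw [← h2]
    refine intervalIntegral.integral_congr fun t _ => ?_
    show Real.sqrt (1 - (-t) ^ 2) * ((-t) ^ 2) ^ k = Real.sqrt (1 - t ^ 2) * (t ^ 2) ^ k
    rw [neg_sq]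
  have hm : 2 * mom k = ∫ t in (-1 : ℝ)..1, Real.sqrt (1 - t ^ 2) * (t ^ 2) ^ k := by
    rw [hsplit, heven]
    unfold mom
    ring
  rw [hm]
  unfold ii
  rw [← intervalIntegral.integral_const_mul, ← intervalIntegral.integral_sub
    ((cont_ii h0 h1 k).intervalIntegrable) (hc.intervalIntegrable _ _)]
  refine intervalIntegral.integral_congr fun t ht => ?_
  rw [uIcc_of_le (by norm_num : (-1 : ℝ) ≤ 1)] at ht
  have hD := (Int_den h0 h1 (Int_sq ht.1 ht.2)).ne'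
  show (1 - s ^ 6) * (Real.sqrt (1 - t ^ 2) * (t ^ 2) ^ (k + 1) / (1 - t ^ 2 * (1 - s ^ 6))) =
    Real.sqrt (1 - t ^ 2) * (t ^ 2) ^ k / (1 - t ^ 2 * (1 - s ^ 6)) -
      Real.sqrt (1 - t ^ 2) * (t ^ 2) ^ k
  obtain ⟨D, hDd⟩ : ∃ D : ℝ, D = 1 - t ^ 2 * (1 - s ^ 6) := ⟨_, rfl⟩
  rw [← hDd] at hD ⊢
  rw [eq_sub_iff_add_eq, pow_succ]
  field_simp
  rw [hDd]
  ring

end Pool.Agent.Lib.MP_b8b490_an.Low
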