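import Pool.Agent.Lib.MP_b8b490_an.Low.Defs

open MeasureTheory Set Filter Topology
open scoped ENNReal

namespace Pool.Agent.Lib.MP_b8b490_an.Low

open Pool.Agent.Lib.MP_b8b490_an.Four

/-- the part of `LL` which is continuous at `1` -/
noncomputable def Lim_bb (s : ℝ) : ℝ :=
  Real.log (1 + s) + 3 / 4 * Real.log (1 + s + s ^ 2) + 1 / 4 * Real.log (1 - s + s ^ 2) + aa s

theorem Lim_cont : ContinuousAt Lim_bb 1 := by
  unfold Lim_bb aa
  have h1 : ContinuousAt (fun s : ℝ => Real.log (1 + s)) 1 :=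
    ContinuousAt.log (by fun_prop) (by norm_num)
  have h2 : ContinuousAt (fun s : ℝ => Real.log (1 + s + s ^ 2)) 1 :=
    ContinuousAt.log (by fun_prop) (by norm_num)
  have h3 : ContinuousAt (fun s : ℝ => Real.log (1 - s + s ^ 2)) 1 :=
    ContinuousAt.log (by fun_prop) (by norm_num)
  have h4 : ContinuousAt (fun s : ℝ => Real.arctan ((2 * s + 1) / Real.sqrt 3)) 1 :=
    (Real.continuous_arctan.comp (by fun_prop)).continuousAt
  have h5 : ContinuousAt (fun s : ℝ => Real.arctan ((2 * s - 1) / Real.sqrt 3)) 1 :=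
    (Real.continuous_arctan.comp (by fun_prop)).continuousAt
  exact ((h1.add (h2.const_mul _)).add (h3.const_mul _)).add ((h4.add h5).const_mul _)

theorem Lim_one : Lim_bb 1 = Real.log 2 + 3 / 4 * Real.log 3 + Real.sqrt 3 * Real.pi / 4 := by
  have h3 : 0 < Real.sqrt 3 := Real.sqrt_pos.2 (by norm_num)
  have hss : Real.sqrt 3 ^ 2 = 3 := Real.sq_sqrt (by norm_num)
  have e1 : (2 * (1 : ℝ) + 1) / Real.sqrt 3 = Real.sqrt 3 := by
    rw [div_eq_iff h3.ne']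
    nlinarith
  have e2 : (2 * (1 : ℝ) - 1) / Real.sqrt 3 = (Real.sqrt 3)⁻¹ := by
    rw [← one_div]
    norm_num
  unfold Lim_bb aa
  rw [e1, e2, Real.arctan_sqrt_three, Real.arctan_inv_sqrt_three]
  have e3 : (1 - 1 + 1 ^ 2 : ℝ) = 1 := by norm_num
  have e4 : (1 + 1 : ℝ) = 2 := by norm_num
  have e5 : (2 + 1 ^ 2 : ℝ) = 3 := by norm_num
  rw [e3, e4, e5, Real.log_one]
  ring

theorem Lim_LL {M : ℝ} (hM : 1 < M) : LL (sM M) = Lim_bb (sM M) + Real.log M := by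
  obtain ⟨-, -, h⟩ := sM_mem hM
  unfold LL Lim_bb
  rw [h, Real.log_div one_ne_zero (by positivity), Real.log_one, Real.log_pow]
  push_cast
  ring

theorem Lim_sM : Tendsto (fun M : ℝ => sM M) atTop (𝓝 1) := by
  have h1 : Tendsto (fun M : ℝ => 1 - 1 / M ^ 2) atTop (𝓝 1) := by
    have h2 : Tendsto (fun M : ℝ => 1 / M ^ 2) atTop (𝓝 0) := by
      have := tendsto_pow_neg_atTop (𝕜 := ℝ) (n := 2) (by norm_num)
      refine this.congr fun M => ?_
      rw [zpow_neg, one_div]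
      norm_cast
    simpa using (tendsto_const_nhds (x := (1 : ℝ))).sub h2
  have h4 := h1.rpow_const (p := (1 : ℝ) / 6) (Or.inl one_ne_zero)
  rw [Real.one_rpow] at h4
  exact h4

theorem Lim_top (c : ℝ) : Tendsto (fun a : ℝ => 2 / a + c) (𝓝[>] 0) atTop := by
  refine tendsto_atTop_add_const_right _ _ ?_
  have h2 := (tendsto_inv_nhdsGT_zero (𝕜 := ℝ)).const_mul_atTop (zero_lt_two (α := ℝ))
  refine h2.congr fun a => ?_
  rw [div_eq_mul_inv]

theorem Lim_topM : Tendsto (fun a : ℝ => 2 / a - 1) (𝓝[>] 0) atTop := by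
  simpa only [sub_eq_add_neg] using Lim_top (-1)

theorem Lim_contI : Continuous fun s : ℝ => ∫ σ in (0 : ℝ)..s, RR σ := by
  have h : Continuous RR := by
    unfold RR
    fun_prop
  exact intervalIntegral.continuous_primitive (fun a b => h.intervalIntegrable a b) 0

theorem Lim_bbM {f : ℝ → ℝ} (hf : Tendsto f (𝓝[>] 0) atTop) :
    Tendsto (fun a : ℝ => Lim_bb (sM (f a))) (𝓝[>] 0) (𝓝 (Lim_bb 1)) :=
  Lim_cont.tendsto.comp (Lim_sM.comp hf)

theorem Lim_small : ∀ᶠ a in 𝓝[>] (0 : ℝ), 0 < a ∧ a < 1 ∧ 1 < 2 / a - 1 ∧ 1 < 2 / a + 1 := by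
  filter_upwards [Ioo_mem_nhdsGT (zero_lt_one (α := ℝ))] with a ha
  have h1 : 2 < 2 / a := by
    rw [lt_div_iff₀ ha.1]
    linarith [ha.2]
  exact ⟨ha.1, ha.2, by linarith, by linarith⟩

/-- compare `eventually_le` in `Four/Main.lean`;
`1 - (sM M)⁶ = 1 / M²`, `log (2 / a ± 1) + log a → log 2` -/
theorem lim {A : ℝ} (hA : A < 2 * Real.log 2 + 3 / 4 * Real.log 3 +
    Real.sqrt 3 * Real.pi / 4 + (4 * QQ 1 - ∫ σ in (0 : ℝ)..1, RR σ) / 3) :
    ∀ᶠ a in 𝓝[>] (0 : ℝ), A ≤ (4 * (LL (sM (2 / a - 1)) + QQ 1 - 100 * (1 - sM (2 / a - 1))) -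
      (LL (sM (2 / a + 1)) + ∫ σ in (0 : ℝ)..sM (2 / a + 1), RR σ)) / 3 + Real.log a := by
  have t1 := Lim_bbM Lim_topM
  have t2 := Lim_bbM (Lim_top 1)
  have t3 : Tendsto (fun a : ℝ => sM (2 / a - 1)) (𝓝[>] 0) (𝓝 1) := Lim_sM.comp Lim_topM
  have t4 : Tendsto (fun a : ℝ => ∫ σ in (0 : ℝ)..sM (2 / a + 1), RR σ) (𝓝[>] 0)
      (𝓝 (∫ σ in (0 : ℝ)..1, RR σ)) :=
    (Lim_contI.tendsto 1).comp (Lim_sM.comp (Lim_top 1))
  have t5 : Tendsto (fun a : ℝ => Real.log (2 - a)) (𝓝[>] 0) (𝓝 (Real.log 2)) := by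
    have h : ContinuousAt (fun a : ℝ => Real.log (2 - a)) 0 :=
      ContinuousAt.log (by fun_prop) (by norm_num)
    have h2 := h.tendsto.mono_left (nhdsWithin_le_nhds (s := Ioi (0 : ℝ)))
    simpa using h2
  have t6 : Tendsto (fun a : ℝ => Real.log (2 + a)) (𝓝[>] 0) (𝓝 (Real.log 2)) := by
    have h : ContinuousAt (fun a : ℝ => Real.log (2 + a)) 0 :=
      ContinuousAt.log (by fun_prop) (by norm_num)
    have h2 := h.tendsto.mono_left (nhdsWithin_le_nhds (s := Ioi (0 : ℝ)))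
    simpa using h2
  have t := ((((t1.add_const (QQ 1)).sub ((t3.const_sub 1).const_mul 100)).const_mul 4).sub
    (t2.add t4)).div_const 3 |>.add (((t5.const_mul 4).sub t6).div_const 3)
  have hL : (4 * (Lim_bb 1 + QQ 1 - 100 * (1 - 1)) - (Lim_bb 1 + ∫ σ in (0 : ℝ)..1, RR σ)) / 3 +
      (4 * Real.log 2 - Real.log 2) / 3 = 2 * Real.log 2 + 3 / 4 * Real.log 3 +
    Real.sqrt 3 * Real.pi / 4 + (4 * QQ 1 - ∫ σ in (0 : ℝ)..1, RR σ) / 3 := by
    rw [Lim_one]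
    ring
  rw [hL] at t
  filter_upwards [t.eventually (lt_mem_nhds hA), Lim_small] with a h1 ⟨ha0, ha1, hM1, hM2⟩
  refine h1.le.trans (le_of_eq ?_)
  rw [Lim_LL hM1, Lim_LL hM2]
  have e1 : Real.log (2 - a) = Real.log (2 / a - 1) + Real.log a := by
    rw [← Real.log_mul (by linarith) ha0.ne']
    congr 1
    field_simp
  have e2 : Real.log (2 + a) = Real.log (2 / a + 1) + Real.log a := by
    rw [← Real.log_mul (by linarith) ha0.ne']
    congr 1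
    field_simp
  rw [e1, e2]
  ring

/-- both quantities are positive for small `a` -/
theorem pos : ∀ᶠ a in 𝓝[>] (0 : ℝ),
    0 < LL (sM (2 / a - 1)) + QQ 1 - 100 * (1 - sM (2 / a - 1)) ∧
    0 < LL (sM (2 / a + 1)) + ∫ σ in (0 : ℝ)..sM (2 / a + 1), RR σ := by
  have t1 := Lim_bbM Lim_topM
  have t2 := Lim_bbM (Lim_top 1)
  have t3 : Tendsto (fun a : ℝ => sM (2 / a - 1)) (𝓝[>] 0) (𝓝 1) := Lim_sM.comp Lim_topM
  have t4 : Tendsto (fun a : ℝ => ∫ σ in (0 : ℝ)..sM (2 / a + 1), RR σ) (𝓝[>] 0)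
      (𝓝 (∫ σ in (0 : ℝ)..1, RR σ)) :=
    (Lim_contI.tendsto 1).comp (Lim_sM.comp (Lim_top 1))
  have t5 : Tendsto (fun a : ℝ => Real.log (2 / a - 1)) (𝓝[>] 0) atTop :=
    Real.tendsto_log_atTop.comp Lim_topM
  have t6 : Tendsto (fun a : ℝ => Real.log (2 / a + 1)) (𝓝[>] 0) atTop :=
    Real.tendsto_log_atTop.comp (Lim_top 1)
  have u1 := ((t1.add_const (QQ 1)).sub ((t3.const_sub 1).const_mul 100)).add_atTop t5
  have u2 := (t2.add t4).add_atTop t6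
  filter_upwards [u1.eventually_gt_atTop 0, u2.eventually_gt_atTop 0, Lim_small] with a h1 h2
    ⟨ha0, ha1, hM1, hM2⟩
  rw [Lim_LL hM1, Lim_LL hM2]
  constructor <;> linarith

end Pool.Agent.Lib.MP_b8b490_an.Low
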