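import Pool.Agent.Lib.MP_b8b490_an.Low.Defs
import Pool.Agent.Lib.MP_b8b490_an.Four.A6

open MeasureTheory Set Filter Topology
open scoped ENNReal

namespace Pool.Agent.Lib.MP_b8b490_an.Low

open Pool.Agent.Lib.MP_b8b490_an.Four

theorem Mod_amgm {M v E : ℝ} (hE : E = 4 * M - 3 * v) (hM : 0 < M) (hv : 0 < v) :
    E * v ^ 3 ≤ M ^ 4 := by
  have h1 : M ^ 4 - E * v ^ 3 = (M - v) ^ 2 * (M ^ 2 + 2 * M * v + 3 * v ^ 2) := by
    rw [hE]; ring
  have h2 : 0 ≤ (M - v) ^ 2 * (M ^ 2 + 2 * M * v + 3 * v ^ 2) := by positivity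
  linarith

/-- from the capacity to the modulus: `M⁴ ≥ E v³` for `v = (4 M - E) / 3` (arithmetic geometric
mean inequality) -/
theorem ringMod_ge {a M E : ℝ} (hM : 0 < M) (hE : 0 < E)
    (hc : 0 < cap (ring (k := 3) a) (slit a) outer)
    (h : cap (ring (k := 3) a) (slit a) outer ≤
      ENNReal.ofReal (1 / M ^ 4) * ENNReal.ofReal (2 * Real.pi ^ 2 * E)) :
    (4 * M - E) / 3 ≤ ringMod 3 a := by
  have hpi := Real.pi_pos
  have hmod : ringMod 3 a =
      (2 * Real.pi ^ 2 / (cap (ring (k := 3) a) (slit a) outer).toReal) ^ ((1 : ℝ) / 3) := by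
    have hexp : (1 / (((3 + 1 : ℕ) : ℝ) - 1)) = 1 / 3 := by push_cast; norm_num
    unfold ringMod modulus
    rw [hexp]
    have h4 : sphereArea (3 + 1) = 2 * Real.pi ^ 2 := sphereArea_four
    rw [h4]
  rw [hmod]
  generalize cap (ring (k := 3) a) (slit a) outer = c at hc h ⊢
  have hnt : ENNReal.ofReal (1 / M ^ 4) * ENNReal.ofReal (2 * Real.pi ^ 2 * E) ≠ ⊤ :=
    ENNReal.mul_ne_top ENNReal.ofReal_ne_top ENNReal.ofReal_ne_top
  have hfin : c ≠ ⊤ := ne_top_of_le_ne_top hnt h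
  have hcpos : 0 < c.toReal := ENNReal.toReal_pos hc.ne' hfin
  have hcle : c.toReal ≤ 1 / M ^ 4 * (2 * Real.pi ^ 2 * E) := by
    have h1 := ENNReal.toReal_mono hnt h
    rwa [ENNReal.toReal_mul, ENNReal.toReal_ofReal (by positivity),
      ENNReal.toReal_ofReal (by positivity)] at h1
  by_cases hv : (4 * M - E) / 3 ≤ 0
  · exact hv.trans (Real.rpow_nonneg (by positivity) _)
  push Not at hv
  have hM4 : E * ((4 * M - E) / 3) ^ 3 ≤ M ^ 4 :=
    Mod_amgm (by ring) hM hv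
  generalize (4 * M - E) / 3 = v at hv hM4 ⊢
  have h3 : v ^ 3 ≤ 2 * Real.pi ^ 2 / c.toReal := by
    rw [le_div_iff₀ hcpos]
    calc v ^ 3 * c.toReal ≤ v ^ 3 * (1 / M ^ 4 * (2 * Real.pi ^ 2 * E)) := by gcongr
      _ = (E * v ^ 3) / M ^ 4 * (2 * Real.pi ^ 2) := by ring
      _ ≤ 1 * (2 * Real.pi ^ 2) := by
          gcongr
          rw [div_le_one (by positivity)]
          exact hM4
      _ = 2 * Real.pi ^ 2 := one_mul _
  calc v = (v ^ 3) ^ ((1 : ℝ) / 3) := by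
        rw [← Real.rpow_natCast, ← Real.rpow_mul hv.le]
        norm_num
    _ ≤ _ := Real.rpow_le_rpow (by positivity) h3 (by norm_num)

end Pool.Agent.Lib.MP_b8b490_an.Low
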