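import Pool.Agent.Lib.MP_b8b490_an.Low.Defs

open MeasureTheory Set Filter Topology
open scoped ENNReal

namespace Pool.Agent.Lib.MP_b8b490_an.Low

open Pool.Agent.Lib.MP_b8b490_an.Four

theorem Num_int : ∫ σ in (0 : ℝ)..1, RR σ = -253427255 / 590413824 := by
  have h1 : ∀ s : ℝ, RR s = ∑ k : Fin 13, (![-8613, -30137, 223281, -779453, 3274641, -15984552, 59061430, -151009562, 263484182, -306515552, 226591598, -95944309, 17637814] k : ℝ) / 16384 * s ^ (k : ℕ) := by
    intro s
    unfold RR
    simp only [Fin.sum_univ_succ, Fin.sum_univ_zero, Matrix.cons_val_zero, Matrix.cons_val_succ,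
      Fin.val_zero, Fin.val_succ]
    ring
  have h2 : ∀ k : ℕ, ∫ σ in (0 : ℝ)..1, σ ^ k = 1 / ((k : ℝ) + 1) := by
    intro k
    rw [integral_pow]
    simp
  simp_rw [h1]
  rw [intervalIntegral.integral_finsetSum]
  · simp_rw [intervalIntegral.integral_const_mul, h2]
    simp only [Fin.sum_univ_succ, Fin.sum_univ_zero, Matrix.cons_val_zero, Matrix.cons_val_succ,
      Fin.val_zero, Fin.val_succ]
    norm_num
  · intro k _
    exact (Continuous.intervalIntegrable (by fun_prop) _ _)

/-- the right side is `log 22.70388...`; compare `numeric` in `Four/Main.lean` -/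
theorem numeric : Real.log (227 / 10) < 2 * Real.log 2 + 3 / 4 * Real.log 3 +
    Real.sqrt 3 * Real.pi / 4 + (4 * QQ 1 - ∫ σ in (0 : ℝ)..1, RR σ) / 3 := by
  rw [Num_int]
  have hQ : QQ 1 = -454 / 1024 := by
    unfold QQ
    norm_num
  rw [hQ]
  have h0 : Real.log (227 / 10) = 4 * Real.log 2 + Real.log (227 / 160) := by
    have : (227 / 10 : ℝ) = 2 ^ 4 * (227 / 160) := by norm_num
    rw [this, Real.log_mul (by norm_num) (by norm_num), Real.log_pow]
    norm_num
  have h1 : Real.log (227 / 160) ≤ 3498 / 10000 := by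
    rw [Real.log_le_iff_le_exp (by norm_num)]
    have h9 : ∑ i ∈ Finset.range 6, (3498 / 10000 : ℝ) ^ i / i.factorial ≤
        Real.exp (3498 / 10000) := Real.sum_le_exp_of_nonneg (by norm_num) 6
    refine le_trans ?_ h9
    norm_num [Finset.sum_range_succ, Nat.factorial]
  have h2 := Real.log_two_lt_d9
  have h3 : 10986 / 10000 ≤ Real.log 3 := by
    rw [Real.le_log_iff_exp_le (by norm_num)]
    have h7 : Real.exp (10986 / 10000) = Real.exp (986 / 10000) * Real.exp 1 := by
      rw [← Real.exp_add]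
      norm_num
    have h8 := Real.exp_one_lt_d9
    have h9 : Real.exp (986 / 10000) ≤ 11036252 / 10000000 := by
      have := Real.exp_bound' (x := 986 / 10000) (by norm_num) (by norm_num) (n := 5)
        (by norm_num)
      refine this.trans ?_
      norm_num [Finset.sum_range_succ, Nat.factorial]
    rw [h7]
    calc Real.exp (986 / 10000) * Real.exp 1 ≤ 11036252 / 10000000 * 2.7182818286 :=
          mul_le_mul h9 h8.le (Real.exp_pos _).le (by norm_num)
      _ ≤ 3 := by norm_num
  have h4 : 17320508 / 10000000 ≤ Real.sqrt 3 := by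
    apply Real.le_sqrt_of_sq_le
    norm_num
  have h5 := Real.pi_gt_d6
  have h6 : 17320508 / 10000000 * 3.141592 ≤ Real.sqrt 3 * Real.pi :=
    mul_le_mul h4 h5.le (by norm_num) (Real.sqrt_nonneg _)
  rw [h0]
  linarith

end Pool.Agent.Lib.MP_b8b490_an.Low
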