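import Pool.Agent.Lib.MP_b8b490_an.Low.Energy
import Pool.Agent.Lib.MP_b8b490_an.Low.Adm
import Pool.Agent.Lib.MP_b8b490_an.Low.Far
import Pool.Agent.Lib.MP_b8b490_an.Low.Mod
import Pool.Agent.Lib.MP_b8b490_an.Low.Num
import Pool.Agent.Lib.MP_b8b490_an.Low.Lim
import Pool.Agent.Lib.MP_b8b490_an.Four.Main

open MeasureTheory Set Filter Topology
open scoped ENNReal

namespace Pool.Agent.Lib.MP_b8b490_an.Low

open Pool.Agent.Lib.MP_b8b490_an.Four

theorem eventually_ge :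
    ∀ᶠ a in 𝓝[>] (0 : ℝ), Real.log (227 / 10) ≤ ringMod 3 a + Real.log a := by
  have hsmall : ∀ᶠ a in 𝓝[>] (0 : ℝ), a ∈ Ioo (0 : ℝ) 1 := Ioo_mem_nhdsGT one_pos
  filter_upwards [lim numeric, pos, hsmall] with a h1 h2 h3
  have hc := (cap_pos_lt_top h3.1 h3.2).1
  have h4 := cap_le h3.1 h2.1 fun x hx => le_Phi h3.1 h3.2 hx
  have h5 := h4.trans (mul_le_mul_right (energy h3.1 rfl) _)
  have h6 := ringMod_ge h2.1 h2.2 hc h5
  linarith

end Pool.Agent.Lib.MP_b8b490_an.Low
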