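import Mathlib

/-! ### Polynomials with integer coefficients as lists -/

namespace Pool.Agent.Lib.MP_b8b490_an.Low

/-- value at `x` of the polynomial with coefficient list `l` -/
noncomputable def ev (x : ℝ) : List ℤ → ℝ
  | [] => 0
  | c :: l => c + x * ev x l

def add : List ℤ → List ℤ → List ℤ
  | [], m => m
  | c :: l, [] => c :: l
  | c :: l, d :: m => (c + d) :: add l m

def sc (k : ℤ) : List ℤ → List ℤ
  | [] => []
  | c :: l => k * c :: sc k l

def mul : List ℤ → List ℤ → List ℤ
  | [], _ => []
  | c :: l, m => add (sc c m) (0 :: mul l m)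

/-- `x ↦ x³` -/
def sp3 : List ℤ → List ℤ
  | [] => []
  | c :: l => c :: 0 :: 0 :: sp3 l

theorem ev_add (x : ℝ) : ∀ l m : List ℤ, ev x (add l m) = ev x l + ev x m
  | [], m => by simp [add, ev]
  | c :: l, [] => by simp [add, ev]
  | c :: l, d :: m => by
    simp only [add, ev, ev_add x l m]
    push_cast
    ring

theorem ev_sc (x : ℝ) (k : ℤ) : ∀ l : List ℤ, ev x (sc k l) = k * ev x l
  | [] => by simp [sc, ev]
  | c :: l => by
    simp only [sc, ev, ev_sc x k l]
    push_cast
    ring

theorem ev_mul (x : ℝ) : ∀ l m : List ℤ, ev x (mul l m) = ev x l * ev x m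
  | [], m => by simp [mul, ev]
  | c :: l, m => by
    simp only [mul, ev, ev_add, ev_sc, ev_mul x l m]
    push_cast
    ring

theorem ev_sp3 (x : ℝ) : ∀ l : List ℤ, ev x (sp3 l) = ev (x ^ 3) l
  | [] => by simp [sp3, ev]
  | c :: l => by
    simp only [sp3, ev, ev_sp3 x l]
    push_cast
    ring

/-! The Bernstein form. -/

/-- value of `∑ c_i s^i w^(n-i)` -/
noncomputable def eb (s w : ℝ) : List ℤ → ℝ
  | [] => 0
  | c :: l => c * w ^ l.length + s * eb s w l

/-- the coefficients of `(s + w) ^ n` -/
def row : ℕ → List ℤ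
  | 0 => [1]
  | n + 1 => add (row n ++ [0]) (0 :: row n)

/-- the Bernstein coefficients (with the binomial factors) -/
def bern : List ℤ → List ℤ
  | [] => []
  | c :: l => add (sc c (row l.length)) (0 :: bern l)

theorem length_add : ∀ l m : List ℤ, l.length = m.length → (add l m).length = l.length
  | [], m => by intro h; simpa [add] using h.symm
  | c :: l, [] => by intro h; simp at h
  | c :: l, d :: m => by
    intro h
    simp only [add, List.length_cons] at h ⊢
    rw [length_add l m (by omega)]

theorem length_sc (k : ℤ) : ∀ l : List ℤ, (sc k l).length = l.length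
  | [] => rfl
  | c :: l => by simp [sc, length_sc k l]

theorem length_row : ∀ n : ℕ, (row n).length = n + 1
  | 0 => rfl
  | n + 1 => by
    rw [row, length_add _ _ (by simp)]
    simp [length_row n]

theorem length_bern : ∀ l : List ℤ, (bern l).length = l.length
  | [] => rfl
  | c :: l => by
    rw [bern, length_add _ _ (by simp [length_sc, length_row, length_bern l])]
    simp [length_sc, length_row]

theorem eb_add (s w : ℝ) : ∀ l m : List ℤ, l.length = m.length →
    eb s w (add l m) = eb s w l + eb s w m
  | [], m => by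
    intro h
    have : m = [] := by simpa using h.symm
    simp [add, eb, this]
  | c :: l, [] => by intro h; simp at h
  | c :: l, d :: m => by
    intro h
    have h1 : l.length = m.length := by simpa using h
    simp only [add, eb, eb_add s w l m h1, length_add l m h1, h1]
    push_cast
    ring

theorem eb_sc (s w : ℝ) (k : ℤ) : ∀ l : List ℤ, eb s w (sc k l) = k * eb s w l
  | [] => by simp [sc, eb]
  | c :: l => by
    simp only [sc, eb, eb_sc s w k l, length_sc]
    push_cast
    ring

theorem eb_append (s w : ℝ) : ∀ l : List ℤ, eb s w (l ++ [0]) = w * eb s w l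
  | [] => by simp [eb]
  | c :: l => by
    simp only [List.cons_append, eb, eb_append s w l, List.length_append, List.length_cons,
      List.length_nil]
    ring

theorem eb_row (s w : ℝ) : ∀ n : ℕ, eb s w (row n) = (s + w) ^ n
  | 0 => by simp [row, eb]
  | n + 1 => by
    rw [row, eb_add _ _ _ _ (by simp), eb_append, eb, eb_row s w n]
    push_cast
    ring

theorem eb_bern {s w : ℝ} (h : s + w = 1) : ∀ l : List ℤ, eb s w (bern l) = ev s l
  | [] => by simp [bern, eb, ev]
  | c :: l => by
    rw [bern, eb_add _ _ _ _ (by simp [length_sc, length_row, length_bern]), eb_sc, eb_row, eb, h,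
      eb_bern h l, ev]
    push_cast
    ring

theorem eb_nonneg {s w : ℝ} (hs : 0 ≤ s) (hw : 0 ≤ w) : ∀ l : List ℤ,
    l.all (fun c => decide (0 ≤ c)) = true → 0 ≤ eb s w l
  | [] => by intro _; simp [eb]
  | c :: l => by
    intro h
    simp only [List.all_cons, Bool.and_eq_true, decide_eq_true_eq] at h
    have h1 : (0 : ℝ) ≤ c := by exact_mod_cast h.1
    have h2 := eb_nonneg hs hw l h.2
    simp only [eb]
    positivity

/-- nonnegative Bernstein coefficients -/
theorem ev_nonneg {l : List ℤ} (h : (bern l).all (fun c => decide (0 ≤ c)) = true) {s : ℝ}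
    (h0 : 0 ≤ s) (h1 : s ≤ 1) : 0 ≤ ev s l := by
  rw [← eb_bern (s := s) (w := 1 - s) (by ring)]
  exact eb_nonneg h0 (by linarith) _ h

theorem ev_append (x : ℝ) : ∀ l : List ℤ, ev x (l ++ [0]) = ev x l
  | [] => by simp [ev]
  | c :: l => by simp only [List.cons_append, ev, ev_append x l]

theorem ev_row (x : ℝ) : ∀ n : ℕ, ev x (row n) = (1 + x) ^ n
  | 0 => by simp [row, ev]
  | n + 1 => by
    rw [row, ev_add, ev_append, ev, ev_row x n]
    push_cast
    ring

/-! Prefix sums: division by `1 - x`. -/

def pre (s : ℤ) : List ℤ → List ℤ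
  | [] => []
  | c :: l => (s + c) :: pre (s + c) l

def sm : List ℤ → ℤ
  | [] => 0
  | c :: l => c + sm l

theorem ev_pre (x : ℝ) : ∀ (l : List ℤ) (s : ℤ),
    (1 - x) * ev x (pre s l) = s + ev x l - x ^ l.length * (s + sm l)
  | [], s => by simp [pre, ev, sm]
  | c :: l, s => by
    have h := ev_pre x l (s + c)
    simp only [pre, ev, sm, List.length_cons]
    have e : (1 - x) * (((s + c : ℤ) : ℝ) + x * ev x (pre (s + c) l)) =
        (1 - x) * ((s + c : ℤ) : ℝ) + x * ((1 - x) * ev x (pre (s + c) l)) := by ring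
    rw [e, h]
    push_cast
    ring

/-! Bivariate polynomials. -/

/-- value at `(x, T)` -/
noncomputable def ev2 (x T : ℝ) : List (List ℤ) → ℝ
  | [] => 0
  | c :: l => ev x c + T * ev2 x T l

def add2 : List (List ℤ) → List (List ℤ) → List (List ℤ)
  | [], m => m
  | c :: l, [] => c :: l
  | c :: l, d :: m => add c d :: add2 l m

def smul2 (k : List ℤ) : List (List ℤ) → List (List ℤ)
  | [] => []
  | c :: l => mul k c :: smul2 k l

def mul2 : List (List ℤ) → List (List ℤ) → List (List ℤ)
  | [], _ => []
  | c :: l, m => add2 (smul2 c m) ([] :: mul2 l m)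

theorem ev2_add (x T : ℝ) : ∀ l m : List (List ℤ), ev2 x T (add2 l m) = ev2 x T l + ev2 x T m
  | [], m => by simp [add2, ev2]
  | c :: l, [] => by simp [add2, ev2]
  | c :: l, d :: m => by
    simp only [add2, ev2, ev2_add x T l m, ev_add]
    ring

theorem ev2_smul (x T : ℝ) (k : List ℤ) : ∀ l : List (List ℤ),
    ev2 x T (smul2 k l) = ev x k * ev2 x T l
  | [] => by simp [smul2, ev2]
  | c :: l => by
    simp only [smul2, ev2, ev2_smul x T k l, ev_mul]
    ring

theorem ev2_mul (x T : ℝ) : ∀ l m : List (List ℤ), ev2 x T (mul2 l m) = ev2 x T l * ev2 x T m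
  | [], m => by simp [mul2, ev2]
  | c :: l, m => by
    simp only [mul2, ev2, ev2_add, ev2_smul, ev2_mul x T l m, ev]
    ring

end Pool.Agent.Lib.MP_b8b490_an.Low
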